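import Pool.Agent.Work.MP_c20ce7_dm70.S9

set_option autoImplicit false
set_option linter.unusedSectionVars false
set_option linter.unusedSimpArgs false

/-!
# The coordinates of the up-step: consequences
-/

open MvPolynomial

noncomputable section

namespace Pool.DM

/-- Change of coordinates and the characteristic variety, pull-back form: the old covector is the pull-back
of the new one. -/
theorem WMod.InCh.coord_pull {τ κ : Type} [Fintype τ] [DecidableEq τ] [Fintype κ] [DecidableEq κ]
    {L : Type} [AddCommGroup L] [Module ℂ L] {W : WMod τ L} {q : MvPolynomial τ ℂ}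
    {Y : κ → MvPolynomial τ ℂ} {A : κ → τ → MvPolynomial τ ℂ} {p ξ : τ → ℂ} (hCh : W.InCh p ξ)
    (hq : Function.Bijective (W.x q)) (h : Coord q Y A) (hp : eval p q ≠ 0) {x η : κ → ℂ}
    (hx : ∀ k, x k = eval p (Y k)) (hη : ∀ j, ξ j = ∑ l, eval p (pderiv j (Y l)) * η l) :
    (W.coord hq h).InCh x η := by
  have h1 := hCh.coord hq h hp
  have h2 : x = fun k => eval p (Y k) := funext hx
  have h3 : η = fun k => (eval p q)⁻¹ * ∑ j, eval p (A k j) * ξ j := by
    funext k
    have h4 : ∑ j, eval p (A k j) * ξ j = ∑ l, (∑ j, eval p (A k j * pderiv j (Y l))) * η l := by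
      simp only [hη, Finset.mul_sum, Finset.sum_mul, map_mul]
      rw [Finset.sum_comm]
      refine Finset.sum_congr rfl fun l _ => Finset.sum_congr rfl fun j _ => ?_
      ring
    rw [h4]
    simp only [← map_sum, h.left]
    rw [Finset.sum_eq_single k]
    · rw [if_pos rfl, ← mul_assoc, inv_mul_cancel₀ hp, one_mul]
    · intro l _ hl
      rw [if_neg (Ne.symm hl), map_zero, zero_mul]
    · intro h; exact absurd (Finset.mem_univ _) h
  rw [h2, h3]
  exact h1

namespace Row

variable {K R E C : Type} [Fintype K] [DecidableEq K] [Fintype R] [DecidableEq R]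
  [Fintype E] [DecidableEq E] [Fintype C] [DecidableEq C]

variable (p : R → E → K) (J : R → E)

theorem card_eq (hJ : Function.Injective J) :
    Fintype.card (Kap K C E) = Fintype.card (Tau K C J) := by
  have h1 : Fintype.card E = Fintype.card R + Fintype.card (Jc J) := by
    rw [← Fintype.card_sum]
    refine (Fintype.card_of_bijective (f := Sum.elim J fun e : Jc J => e.1) ⟨?_, ?_⟩).symm
    · rintro (a | a) (b | b) h
      · exact congrArg Sum.inl (hJ h)
      · exact absurd h (b.2 a)
      · exact absurd h.symm (a.2 b)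
      · exact congrArg Sum.inr (Subtype.ext h)
    · intro e
      by_cases he : ∀ k, J k ≠ e
      · exact ⟨Sum.inr ⟨e, he⟩, rfl⟩
      · push Not at he
        obtain ⟨k, hk⟩ := he
        exact ⟨Sum.inl k, hk⟩
  simp only [Kap, Tau, Fintype.card_sum, Fintype.card_prod, h1, mul_add]

theorem bind_gm (C : Type) :
    (gm p J (C × E)).map (bind₁ (Ym p J C)) = gm p J ((C × R) ⊕ (C × Jc J)) := by
  ext1 b k
  simp only [Matrix.map_apply, gm, Matrix.of_apply, bind₁_X_right, Ym]

/-- The minor in the new coordinates. -/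
theorem bind_qm (C : Type) : bind₁ (Ym p J C) (qm p J (C × E)) =
    qm p J ((C × R) ⊕ (C × Jc J)) := by
  rw [qm, qm, ← bind_gm p J C, AlgHom.map_det]
  rfl

theorem bind_adj (C : Type) (k b : R) : bind₁ (Ym p J C) ((gm p J (C × E)).adjugate k b) =
    (gm p J ((C × R) ⊕ (C × Jc J))).adjugate k b := by
  have h := AlgHom.map_adjugate (bind₁ (Ym p J C)) (gm p J (C × E))
  have h2 := congrFun (congrFun h k) b
  rw [AlgHom.mapMatrix_apply, AlgHom.mapMatrix_apply, bind_gm] at h2
  exact h2

/-- `q T = φ₂(J) adj`. -/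
theorem T_poly (_hJ : Function.Injective J) (a : C) (b : R) :
    qm p J ((C × R) ⊕ (C × Jc J)) * X (Sum.inr (Sum.inl (a, b))) =
      ∑ k, Ym p J C (Sum.inr (a, J k)) * (gm p J ((C × R) ⊕ (C × Jc J))).adjugate k b := by
  have h1 : ∀ k, Ym p J C (Sum.inr (a, J k)) =
      ∑ b', X (Sum.inr (Sum.inl (a, b'))) * X (Sum.inl (p b' (J k))) := by
    intro k
    rw [Ym, dif_neg (fun h => h k rfl), add_zero]
  simp only [h1, Finset.sum_mul]
  rw [Finset.sum_comm]
  simp only [mul_assoc, ← Finset.mul_sum, gm_adj]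
  rw [Finset.sum_eq_single b]
  · rw [if_pos rfl, mul_comm]
  · intro b' _ hb
    rw [if_neg hb, mul_zero]
  · intro h; exact absurd (Finset.mem_univ _) h

/-- The old coordinates are polynomials in the new ones divided by `q`. -/
theorem old_poly (hJ : Function.Injective J) (j : Tau K C J) :
    ∃ (n : ℕ) (g : MvPolynomial (Kap K C E) ℂ),
      qm p J ((C × R) ⊕ (C × Jc J)) ^ n * X j = bind₁ (Ym p J C) g := by
  rcases j with k | ⟨a, b⟩ | ⟨a, e⟩
  · exact ⟨0, X (Sum.inl k), by rw [pow_zero, one_mul, bind₁_X_right, Ym]⟩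
  · refine ⟨1, ∑ k, X (Sum.inr (a, J k)) * (gm p J (C × E)).adjugate k b, ?_⟩
    rw [pow_one, T_poly p J hJ, map_sum]
    refine Finset.sum_congr rfl fun k _ => ?_
    rw [map_mul, bind₁_X_right, bind_adj]
  · refine ⟨1, qm p J (C × E) * X (Sum.inr (a, e.1)) - ∑ b,
      (∑ k, X (Sum.inr (a, J k)) * (gm p J (C × E)).adjugate k b) * X (Sum.inl (p b e.1)), ?_⟩
    rw [pow_one, map_sub, map_mul, bind_qm, bind₁_X_right, map_sum]
    have h1 : ∀ b, bind₁ (Ym p J C) ((∑ k, X (Sum.inr (a, J k)) *
        (gm p J (C × E)).adjugate k b) * X (Sum.inl (p b e.1))) =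
        qm p J ((C × R) ⊕ (C × Jc J)) * (X (Sum.inr (Sum.inl (a, b))) * X (Sum.inl (p b e.1))) := by
      intro b
      rw [map_mul, bind₁_X_right, map_sum, ← mul_assoc, T_poly p J hJ]
      congr 1
      refine Finset.sum_congr rfl fun k _ => ?_
      rw [map_mul, bind₁_X_right, bind_adj]
    simp only [h1]
    rw [← Finset.mul_sum, ← mul_sub, Ym, dif_pos e.2]
    congr 1
    ring

variable {L : Type} [AddCommGroup L] [Module ℂ L] {W : WMod (Tau K C J) L}

/-- `∑_e φ₁(b, e) ∂/∂φ₂(a, e) = ∂/∂T(a, b)`. -/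
theorem d_T (hJ : Function.Injective J)
    (hq : Function.Bijective (W.x (qm p J ((C × R) ⊕ (C × Jc J))))) (a : C) (b : R) :
    ∑ e, W.x (X (Sum.inl (p b e))) * (W.coord hq (coord p J hJ)).d (X (Sum.inr (a, e))) =
      W.d (X (Sum.inr (Sum.inl (a, b)))) := by
  rw [W.coord_old hq (coord p J hJ), Fintype.sum_sum_type, Fintype.sum_prod_type]
  have h1 : ∑ x : K, W.x (pderiv (Sum.inr (Sum.inl (a, b))) (Ym p J C (Sum.inl x))) *
      (W.coord hq (coord p J hJ)).d (X (Sum.inl x)) = 0 :=
    Finset.sum_eq_zero fun x _ => by rw [Ym, pderiv_X_of_ne (by simp), map_zero, zero_mul]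
  rw [h1, zero_add, Finset.sum_eq_single a]
  · simp only [pd_T, if_true]
  · intro x _ hx
    refine Finset.sum_eq_zero fun e _ => ?_
    rw [pd_T, if_neg (Ne.symm hx), map_zero, zero_mul]
  · intro h; exact absurd (Finset.mem_univ _) h

/-- The commutator of a new derivation of a new row with a function. -/
theorem d_row (hJ : Function.Injective J)
    (hq : Function.Bijective (W.x (qm p J ((C × R) ⊕ (C × Jc J))))) (a : C) (e : E)
    (g : MvPolynomial (Tau K C J) ℂ) :
    (W.coord hq (coord p J hJ)).d (X (Sum.inr (a, e))) * W.x g -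
      W.x g * (W.coord hq (coord p J hJ)).d (X (Sum.inr (a, e))) =
      W.invx _ hq * W.x (∑ j, A2 p J C a e j * pderiv j g) := by
  rw [W.coord_d]
  exact W.nd_x hq (Am p J C) (Sum.inr (a, e)) g

theorem A2_T (a a' : C) (e : E) (b : R) :
    ∑ j, A2 p J C a e j * pderiv j (X (Sum.inr (Sum.inl (a', b))) :
      MvPolynomial (Tau K C J) ℂ) = if a' = a then
      ∑ k, (if J k = e then (gm p J ((C × R) ⊕ (C × Jc J))).adjugate k b else 0) else 0 := by
  rw [Finset.sum_eq_single (Sum.inr (Sum.inl (a', b)))]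
  · rw [pderiv_X_self, mul_one, A2]
  · intro j _ hj
    rw [pderiv_X_of_ne (Ne.symm hj), mul_zero]
  · intro h; exact absurd (Finset.mem_univ _) h

/-- `q ∂/∂φ₂(a, e) = ∂/∂R(a, e)` outside the minor. -/
theorem d_out (hJ : Function.Injective J)
    (hq : Function.Bijective (W.x (qm p J ((C × R) ⊕ (C × Jc J))))) (a : C) (e : Jc J) :
    (W.coord hq (coord p J hJ)).d (X (Sum.inr (a, e.1))) = W.d (X (Sum.inr (Sum.inr (a, e)))) := by
  refine W.x_mul_cancel hq ?_
  rw [W.coord_d, W.x_nd, Finset.sum_eq_single (Sum.inr (Sum.inr (a, e)))]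
  · rw [Am, A2, if_pos rfl, if_pos rfl, sum_J_zero J _ _ e.2, sub_zero]
  · rintro (k | ⟨a', b⟩ | ⟨a', e'⟩) _ hj
    · rw [Am, A2, map_zero, zero_mul]
    · rw [Am, A2, sum_J_zero J _ _ e.2, ite_self, map_zero, zero_mul]
    · rw [Am, A2, sum_J_zero J _ _ e.2, sub_zero]
      by_cases ha : a' = a
      · subst ha
        rw [if_pos rfl, if_neg, map_zero, zero_mul]
        intro h
        exact hj (by rw [Subtype.ext h])
      · rw [if_neg ha, map_zero, zero_mul]
  · intro h; exact absurd (Finset.mem_univ _) h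

/-- The old derivations with respect to `φ₁`: `d_k = D_k + ∑ T(a, b) D_(a, e)` over `p b e = k`. -/
theorem d_old (hJ : Function.Injective J)
    (hq : Function.Bijective (W.x (qm p J ((C × R) ⊕ (C × Jc J))))) (k : K) :
    W.d (X (Sum.inl k)) = (W.coord hq (coord p J hJ)).d (X (Sum.inl k)) +
      ∑ a, ∑ e, W.x (∑ b, if p b e = k then X (Sum.inr (Sum.inl (a, b))) else 0) *
        (W.coord hq (coord p J hJ)).d (X (Sum.inr (a, e))) := by
  rw [W.coord_old hq (coord p J hJ), Fintype.sum_sum_type, Fintype.sum_prod_type]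
  congr 1
  · rw [Finset.sum_eq_single k]
    · rw [Ym, pderiv_X_self, map_one, one_mul]
    · intro x _ hx
      rw [Ym, pderiv_X_of_ne (by simpa using hx), map_zero, zero_mul]
    · intro h; exact absurd (Finset.mem_univ _) h
  · simp only [pd_inl]

end Row

end Pool.DM
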