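import Pool.Agent.Work.MP_c20ce7_dm70.S6

set_option autoImplicit false
set_option linter.unusedSectionVars false

/-!
# Growth after a change of coordinates with denominators
-/

open MvPolynomial

noncomputable section

namespace Pool.DM

variable {τ : Type} [Fintype τ] [DecidableEq τ] {L : Type} [AddCommGroup L] [Module ℂ L]
variable {κ : Type} [Fintype κ] [DecidableEq κ]
variable {W : WMod τ L} {q : MvPolynomial τ ℂ} {Y : κ → MvPolynomial τ ℂ}
  {A : κ → τ → MvPolynomial τ ℂ}

theorem WMod.Growth.coord (hGr : W.Growth) (hq : Function.Bijective (W.x q)) (h : Coord q Y A)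
    (hcard : Fintype.card κ = Fintype.card τ) : (W.coord hq h).Growth := by
  obtain ⟨G, c, hG⟩ := hGr
  have hGx : ∀ (g : MvPolynomial τ ℂ) (l : ℕ), g.totalDegree ≤ l → ∀ k, ∀ u ∈ G k,
      W.x g u ∈ G (k + l) := by
    intro g l hl k u hu
    rw [← W.nf_x]
    refine W.nf_filt G hG.mono hG.hx hG.hd l _ ?_ k u hu
    exact (totalDegree_rename_le _ _).trans hl
  set a := q.totalDegree with ha
  set b := (Finset.univ.sup fun k => (Y k).totalDegree) +
    Finset.univ.sup fun k => Finset.univ.sup fun j => (A k j).totalDegree with hb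
  have hbY : ∀ k, (Y k).totalDegree ≤ b := by
    intro k
    have : (Y k).totalDegree ≤ Finset.univ.sup fun k => (Y k).totalDegree :=
      Finset.le_sup (f := fun k => (Y k).totalDegree) (Finset.mem_univ k)
    omega
  have hbA : ∀ k j, (A k j).totalDegree ≤ b := by
    intro k j
    have h1 : (Finset.univ.sup fun j => (A k j).totalDegree) ≤
        Finset.univ.sup fun k => Finset.univ.sup fun j => (A k j).totalDegree :=
      Finset.le_sup (f := fun k => Finset.univ.sup fun j => (A k j).totalDegree)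
      (Finset.mem_univ k)
    have h2 : (A k j).totalDegree ≤ Finset.univ.sup fun j => (A k j).totalDegree :=
      Finset.le_sup (f := fun j => (A k j).totalDegree) (Finset.mem_univ j)
    omega
  have hpd : ∀ j, (pderiv j q).totalDegree ≤ a := by
    intro j
    exact (totalDegree_pderiv_le j q (k := a) (by omega))
  set E := 2 * a + b + 1 with hE
  have hGq : ∀ n k, ∀ u ∈ G k, W.x (q ^ n) u ∈ G (k + n * a) := by
    intro n k u hu
    exact hGx _ _ (totalDegree_pow _ _) k u hu
  have hinj : ∀ n, Function.Injective (W.x (q ^ n)) := W.x_pow_inj hq.1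
  have c0 : 0 ≤ c := by
    have := hG.bound 0
    have h2 : (0 : ℝ) ≤ Module.finrank ℂ (G 0) := Nat.cast_nonneg _
    simp at this
    linarith
  let G' : ℕ → Submodule ℂ L := fun k => (G (E * k)).comap (W.x (q ^ (2 * k)))
  have hmem : ∀ k v, v ∈ G' k ↔ W.x (q ^ (2 * k)) v ∈ G (E * k) := fun k v => Iff.rfl
  have hstep : ∀ k v, v ∈ G' k → W.x (q ^ (2 * (k + 1))) v ∈ G (E * k + 2 * a) := by
    intro k v hv
    rw [show 2 * (k + 1) = 2 + 2 * k by ring, pow_add, map_mul, Module.End.mul_apply]
    exact hGq 2 _ _ hv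
  refine ⟨G', c * (E : ℝ) ^ Fintype.card τ, ⟨?_, ?_, ?_, ?_, ?_, ?_⟩⟩
  · refine monotone_nat_of_le_succ fun k v hv => ?_
    rw [hmem]
    refine hG.mono ?_ (hstep k v hv)
    rw [mul_add]
    omega
  · intro k
    have := hG.fin (E * k)
    refine Module.Finite.of_injective ((W.x (q ^ (2 * k))).restrict (p := G' k)
      (q := G (E * k)) fun u hu => hu) ?_
    intro u v huv
    exact Subtype.ext (hinj _ (congrArg Subtype.val huv))
  · intro k i u hu
    rw [hmem, W.coord_x, bind₁_X_right, ← Module.End.mul_apply, ← map_mul,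
      mul_comm (q ^ (2 * (k + 1))) (Y i), map_mul, Module.End.mul_apply]
    refine hG.mono ?_ (hGx (Y i) b (hbY i) _ _ (hstep k u hu))
    rw [mul_add]
    omega
  · intro k i u hu
    rw [hmem, W.coord_d]
    have h1 : W.x (q ^ (2 * (k + 1))) (W.nd q hq A i u) =
        ∑ j, W.x (A i j) (W.x (q ^ (2 * k + 1)) (W.d (X j) u)) := by
      rw [show 2 * (k + 1) = (2 * k + 1) + 1 by ring, pow_succ, map_mul, Module.End.mul_apply,
        ← Module.End.mul_apply (W.x q), W.x_nd, LinearMap.sum_apply, map_sum]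
      refine Finset.sum_congr rfl fun j _ => ?_
      rw [Module.End.mul_apply, ← Module.End.mul_apply, ← map_mul, mul_comm, map_mul,
        Module.End.mul_apply]
    rw [h1]
    refine Submodule.sum_mem _ fun j _ => ?_
    have h2 : W.x (q ^ (2 * k + 1)) (W.d (X j) u) ∈ G (E * k + (a + 1)) := by
      rw [W.d_pow]
      refine Submodule.sub_mem _ ?_ (Submodule.smul_mem _ _ ?_)
      · rw [← add_assoc]
        refine hG.hd _ _ _ ?_
        rw [pow_succ', map_mul, Module.End.mul_apply]
        exact hGx q a le_rfl _ _ hu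
      · exact hG.mono (by omega) (hGx _ a (hpd j) _ _ hu)
    refine hG.mono ?_ (hGx (A i j) b (hbA i j) _ _ h2)
    rw [mul_add]
    omega
  · intro u
    obtain ⟨m, hm⟩ := hG.exh u
    refine ⟨m, ?_⟩
    rw [hmem]
    refine hG.mono ?_ (hGq (2 * m) m u hm)
    have : E * m = 2 * m * a + (b + 1) * m := by rw [hE]; ring
    have h2 : m ≤ (b + 1) * m := Nat.le_mul_of_pos_left _ (Nat.succ_pos b)
    omega
  · intro k
    have := hG.fin (E * k)
    have h1 : Module.finrank ℂ (G' k) ≤ Module.finrank ℂ (G (E * k)) :=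
      LinearMap.finrank_le_finrank_of_injective
        (f := (W.x (q ^ (2 * k))).restrict (p := G' k) (q := G (E * k)) fun u hu => hu)
        (fun u v huv => Subtype.ext (hinj _ (congrArg Subtype.val huv)))
    have h2 := hG.bound (E * k)
    have h3 : (((E * k : ℕ) : ℝ) + 1) ^ Fintype.card τ ≤
        (E : ℝ) ^ Fintype.card τ * ((k : ℝ) + 1) ^ Fintype.card κ := by
      rw [hcard, ← mul_pow]
      refine pow_le_pow_left₀ (by positivity) ?_ _
      have h5 : E * k + 1 ≤ E * (k + 1) := by
        rw [mul_add]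
        omega
      exact_mod_cast h5
    calc (Module.finrank ℂ (G' k) : ℝ) ≤ Module.finrank ℂ (G (E * k)) := by exact_mod_cast h1
      _ ≤ c * (((E * k : ℕ) : ℝ) + 1) ^ Fintype.card τ := h2
      _ ≤ c * ((E : ℝ) ^ Fintype.card τ * ((k : ℝ) + 1) ^ Fintype.card κ) :=
        mul_le_mul_of_nonneg_left h3 c0
      _ = _ := by ring

end Pool.DM
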