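import Pool.Agent.Work.MP_c20ce7_dm70.S3
import Pool.Agent.Work.MP_c20ce7_dm77.Prod

set_option autoImplicit false
set_option linter.unusedSectionVars false
set_option linter.unusedSimpArgs false

/-!
# The characteristic variety of an outer product
-/

open MvPolynomial

noncomputable section

namespace Pool.DM

section SymLike

variable {κ : Type} [Fintype κ] [DecidableEq κ] {M : Type} [AddCommGroup M] [Module ℂ M]

/-- A predicate which behaves like: the operator `T` has order at most `k` and symbol value `c`. -/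
structure SymLike (Φ : ℕ → Module.End ℂ M → ℂ → Prop) : Prop where
  one : Φ 0 1 1
  add : ∀ k T S c d, Φ k T c → Φ k S d → Φ k (T + S) (c + d)
  smul : ∀ k T c (a : ℂ), Φ k T c → Φ k (a • T) (a * c)
  mul : ∀ k l T S c d, Φ k T c → Φ l S d → Φ (k + l) (T * S) (c * d)
  raise : ∀ k T c, Φ k T c → Φ (k + 1) T 0

variable {Φ : ℕ → Module.End ℂ M → ℂ → Prop}

theorem SymLike.zero (h : SymLike Φ) (k : ℕ) : Φ k 0 0 := by
  have h0 : Φ 0 0 0 := by
    have := h.smul 0 1 1 0 h.one
    rwa [zero_smul, zero_mul] at this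
  induction k with
  | zero => exact h0
  | succ k ih => exact h.raise _ _ _ ih

theorem SymLike.lt (h : SymLike Φ) {k l : ℕ} (hkl : k < l) {T : Module.End ℂ M} {c : ℂ}
    (hT : Φ k T c) : Φ l T 0 := by
  obtain ⟨n, rfl⟩ := Nat.exists_eq_add_of_lt hkl
  clear hkl
  induction n with
  | zero => exact h.raise _ _ _ hT
  | succ n ih => exact h.raise _ _ _ ih

/-- Symbols of all operators from symbols of the generators. -/
theorem SymLike.nf (h : SymLike Φ) (W' : WMod κ M) (p' ξ' : κ → ℂ)
    (hx : ∀ j, Φ 0 (W'.x (X j)) (p' j)) (hd : ∀ j, Φ 1 (W'.d (X j)) (ξ' j)) {k : ℕ}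
    {P : MvPolynomial (κ ⊕ κ) ℂ} (hP : P ∈ Fil κ (k + 1)) : Φ k (W'.nf P) (symAt k p' ξ' P) := by
  have hX : ∀ g : MvPolynomial κ ℂ, Φ 0 (W'.x g) (eval p' g) := by
    intro g
    induction g using MvPolynomial.induction_on with
    | C a =>
      rw [W'.x_C, eval_C]
      have := h.smul 0 1 1 a h.one
      rwa [mul_one] at this
    | add g g' hg hg' =>
      rw [map_add, map_add]
      exact h.add _ _ _ _ _ hg hg'
    | mul_X g i hg =>
      rw [map_mul, map_mul, eval_X]
      exact h.mul _ _ _ _ _ _ hg (hx i)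
  have hpow : ∀ (i : κ) (n : ℕ), Φ n (W'.d (X i ^ n)) (ξ' i ^ n) := by
    intro i n
    induction n with
    | zero => rw [pow_zero, pow_zero, map_one]; exact h.one
    | succ n ih =>
      rw [pow_succ, pow_succ, map_mul]
      exact h.mul _ _ _ _ _ _ ih (hd i)
  have hD : ∀ b : κ →₀ ℕ, Φ (∑ i, b i) (W'.d (monomial b 1)) (∏ i, ξ' i ^ b i) := by
    intro b
    induction b using Finsupp.induction_linear with
    | zero =>
      simp only [Finsupp.coe_zero, Pi.zero_apply, Finset.sum_const_zero, pow_zero,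
        Finset.prod_const_one]
      rw [show (monomial (0 : κ →₀ ℕ) (1 : ℂ)) = 1 from rfl, map_one]
      exact h.one
    | add a b ha hb =>
      have := h.mul _ _ _ _ _ _ ha hb
      simp only [Finsupp.coe_add, Pi.add_apply, Finset.sum_add_distrib, pow_add,
        Finset.prod_mul_distrib]
      rw [← mul_one (1 : ℂ), ← monomial_mul, map_mul]
      exact this
    | single i n =>
      have := hpow i n
      rw [X_pow_eq_monomial] at this
      have h2 : ∑ j, (Finsupp.single i n) j = n := by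
        rw [Finset.sum_eq_single i]
        · simp
        · intro b _ hb
          exact Finsupp.single_eq_of_ne hb
        · intro h; exact absurd (Finset.mem_univ i) h
      have h3 : ∏ j, ξ' j ^ (Finsupp.single i n) j = ξ' i ^ n := by
        rw [Finset.prod_eq_single i]
        · simp
        · intro b _ hb
          rw [Finsupp.single_eq_of_ne hb, pow_zero]
        · intro h; exact absurd (Finset.mem_univ i) h
      rw [h2, h3]
      exact this
  refine Fil_ind (fun P => Φ k (W'.nf P) (symAt k p' ξ' P)) ?_ ?_ ?_ hP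
  · rw [map_zero, map_zero]
    exact h.zero k
  · intro a b ha hb
    rw [map_add, map_add]
    exact h.add _ _ _ _ _ ha hb
  · intro m c hm
    have h1 := h.mul _ _ _ _ _ _ (hX (monomial (Finsupp.sumFinsuppEquivProdFinsupp m).1 c))
      (hD (Finsupp.sumFinsuppEquivProdFinsupp m).2)
    rw [← W'.nf_mul, ← monomial_split, zero_add] at h1
    have h2 : ∑ i, (Finsupp.sumFinsuppEquivProdFinsupp m).2 i = xd m := rfl
    rw [h2] at h1
    rw [symAt_apply, evt_monomial, Polynomial.coeff_C_mul_X_pow]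
    split_ifs with h3
    · rw [h3]
      convert h1 using 1
      rw [eval_monomial, Finsupp.prod_fintype _ _ (fun i => pow_zero _)]
      simp only [Finsupp.fst_sumFinsuppEquivProdFinsupp, Finsupp.snd_sumFinsuppEquivProdFinsupp]
      ring
    · exact h.lt (by omega) h1

end SymLike

variable {σ : Type} [Fintype σ] [DecidableEq σ] {L : Type} [AddCommGroup L] [Module ℂ L]
variable {τ : Type} [Fintype τ] [DecidableEq τ]

/-- The degree in the delta variables. -/
def mF (s : τ → Bool) (m : τ →₀ ℕ) : ℕ := ∑ k, if s k then 0 else m k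

theorem mF_add_true (s : τ → Bool) (m : τ →₀ ℕ) {k : τ} (h : s k = true) (n : ℕ) :
    mF s (m + Finsupp.single k n) = mF s m := by
  unfold mF
  refine Finset.sum_congr rfl fun j _ => ?_
  by_cases hj : j = k
  · subst hj; simp [h]
  · split_ifs
    · rfl
    · simp [Finsupp.single_apply, Ne.symm hj]

theorem mF_add_false (s : τ → Bool) (m : τ →₀ ℕ) {k : τ} (h : s k = false) :
    mF s (m + Finsupp.single k 1) = mF s m + 1 := by
  unfold mF
  rw [← Finset.add_sum_erase _ _ (Finset.mem_univ k),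
    ← Finset.add_sum_erase _ (fun k => if s k then 0 else m k) (Finset.mem_univ k)]
  have h1 : ∑ x ∈ Finset.univ.erase k, (if s x = true then 0 else (m + Finsupp.single k 1 : τ →₀ ℕ) x) =
      ∑ x ∈ Finset.univ.erase k, if s x = true then 0 else m x := by
    refine Finset.sum_congr rfl fun j hj => ?_
    have hjk := Finset.ne_of_mem_erase hj
    simp [Finsupp.single_apply, Ne.symm hjk]
  rw [h1]
  simp [h]
  ring

/-- Families of symbols of order at most `j`. -/
def Fam (s : τ → Bool) (j : ℕ) (R : PL τ (MvPolynomial (σ ⊕ σ) ℂ)) : Prop :=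
  ∀ m, R m ∈ Fil σ (j + 1 - mF s m)

/-- The vector of a family. -/
def vec (W : WMod σ L) (u : L) : PL τ (MvPolynomial (σ ⊕ σ) ℂ) →ₗ[ℂ] PL τ L :=
  Finsupp.mapRange.linearMap ((LinearMap.applyₗ u).comp W.nf)

theorem vec_apply (W : WMod σ L) (u : L) (R : PL τ (MvPolynomial (σ ⊕ σ) ℂ)) (m : τ →₀ ℕ) :
    vec W u R m = W.nf (R m) u := rfl

/-- The symbol value of a family. -/
def EE (s : τ → Bool) (a : τ → ℂ) (p ξ : σ → ℂ) (j : ℕ) :
    PL τ (MvPolynomial (σ ⊕ σ) ℂ) →ₗ[ℂ] ℂ :=
  Finsupp.lsum ℂ fun m => (∏ k, a k ^ m k) • symAt (j - mF s m) p ξ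

theorem EE_single (s : τ → Bool) (a : τ → ℂ) (p ξ : σ → ℂ) (j : ℕ) (m : τ →₀ ℕ)
    (r : MvPolynomial (σ ⊕ σ) ℂ) : EE s a p ξ j (Finsupp.single m r) =
      (∏ k, a k ^ m k) * symAt (j - mF s m) p ξ r := by
  rw [EE, Finsupp.lsum_single]
  rfl

theorem EE_zero {s : τ → Bool} {a : τ → ℂ} {p ξ : σ → ℂ} {j : ℕ}
    {R : PL τ (MvPolynomial (σ ⊕ σ) ℂ)} (h : ∀ m, R m ∈ Fil σ (j - mF s m)) :
    EE s a p ξ j R = 0 := by
  rw [EE, Finsupp.lsum_apply, Finsupp.sum]
  refine Finset.sum_eq_zero fun m _ => ?_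
  rw [LinearMap.smul_apply, symAt_lt (h m), smul_zero]

theorem prod_pow_single (a : τ → ℂ) (m : τ →₀ ℕ) (k : τ) :
    ∏ j, a j ^ (m + Finsupp.single k 1 : τ →₀ ℕ) j = a k * ∏ j, a j ^ m j := by
  simp only [Finsupp.coe_add, Pi.add_apply, pow_add, Finset.prod_mul_distrib]
  rw [mul_comm]
  congr 1
  rw [Finset.prod_eq_single k]
  · simp
  · intro b _ hb
    rw [Finsupp.single_eq_of_ne hb, pow_zero]
  · intro h; exact absurd (Finset.mem_univ k) h

/-- `T` has order at most `k` and symbol value `c` at the point of the outer product. -/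
def PSym (W : WMod σ L) (s : τ → Bool) (a : τ → ℂ) (p ξ : σ → ℂ) (k : ℕ)
    (T : Module.End ℂ (PL τ L)) (c : ℂ) : Prop :=
  ∀ (j : ℕ) (R : PL τ (MvPolynomial (σ ⊕ σ) ℂ)), Fam s j R →
    ∃ R' : PL τ (MvPolynomial (σ ⊕ σ) ℂ), Fam s (k + j) R' ∧
      (∀ u, T (vec W u R) = vec W u R') ∧ EE s a p ξ (k + j) R' = c * EE s a p ξ j R

theorem Fam.mono {s : τ → Bool} {i j : ℕ} (hij : i ≤ j) {R : PL τ (MvPolynomial (σ ⊕ σ) ℂ)}
    (h : Fam s i R) : Fam s j R := fun m => Fil_mono (by omega) (h m)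

theorem PSym_symLike (W : WMod σ L) (s : τ → Bool) (a : τ → ℂ) (p ξ : σ → ℂ) :
    SymLike (PSym W s a p ξ) where
  one := by
    intro j R hR
    exact ⟨R, by rwa [zero_add], fun u => rfl, by rw [zero_add, one_mul]⟩
  add := by
    intro k T S c d hT hS j R hR
    obtain ⟨R1, h1, h2, h3⟩ := hT j R hR
    obtain ⟨R2, h4, h5, h6⟩ := hS j R hR
    refine ⟨R1 + R2, fun m => Submodule.add_mem _ (h1 m) (h4 m), fun u => ?_, ?_⟩
    · rw [LinearMap.add_apply, h2, h5, map_add]
    · rw [map_add, h3, h6]; ring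
  smul := by
    intro k T c b hT j R hR
    obtain ⟨R1, h1, h2, h3⟩ := hT j R hR
    refine ⟨b • R1, fun m => Submodule.smul_mem _ _ (h1 m), fun u => ?_, ?_⟩
    · rw [LinearMap.smul_apply, h2, map_smul]
    · rw [map_smul, h3, smul_eq_mul]; ring
  mul := by
    intro k l T S c d hT hS j R hR
    obtain ⟨R1, h1, h2, h3⟩ := hS j R hR
    obtain ⟨R2, h4, h5, h6⟩ := hT _ R1 h1
    refine ⟨R2, ?_, fun u => ?_, ?_⟩
    · rwa [add_assoc]
    · rw [Module.End.mul_apply, h2, h5]
    · rw [add_assoc, h6, h3]; ring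
  raise := by
    intro k T c hT j R hR
    obtain ⟨R1, h1, h2, h3⟩ := hT j R hR
    refine ⟨R1, h1.mono (by omega), h2, ?_⟩
    rw [zero_mul]
    exact EE_zero fun m => Fil_mono (by omega) (h1 m)

theorem an_Fam_true {s : τ → Bool} {j : ℕ} {R : PL τ (MvPolynomial (σ ⊕ σ) ℂ)} (h : Fam s j R)
    {k : τ} (hk : s k = true) : Fam s j (an k R) := by
  intro m
  have := h (m + Finsupp.single k 1)
  rw [mF_add_true s m hk] at this
  rw [an_apply]
  exact Submodule.smul_mem _ _ this

theorem an_Fam_false {s : τ → Bool} {j : ℕ} {R : PL τ (MvPolynomial (σ ⊕ σ) ℂ)} (h : Fam s j R)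
    {k : τ} (hk : s k = false) : ∀ m, an k R m ∈ Fil σ (j - mF s m) := by
  intro m
  have := h (m + Finsupp.single k 1)
  rw [mF_add_false s m hk] at this
  rw [an_apply]
  exact Submodule.smul_mem _ _ (Fil_mono (by omega) this)

theorem EE_lft (s : τ → Bool) (a : τ → ℂ) (p ξ : σ → ℂ) (j : ℕ)
    (T : Module.End ℂ (MvPolynomial (σ ⊕ σ) ℂ)) (R : PL τ (MvPolynomial (σ ⊕ σ) ℂ)) :
    EE s a p ξ j (lft T R) = R.sum fun m r =>
      (∏ k, a k ^ m k) * symAt (j - mF s m) p ξ (T r) := by
  induction R using Finsupp.induction_linear with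
  | zero => simp
  | add R S hR hS =>
    rw [map_add, map_add, hR, hS, Finsupp.sum_add_index']
    · intro m; rw [map_zero, map_zero, mul_zero]
    · intro m b c; rw [map_add, map_add, mul_add]
  | single m r =>
    rw [lft_single, EE_single, Finsupp.sum_single_index]
    rw [map_zero, map_zero, mul_zero]

theorem EE_sum (s : τ → Bool) (a : τ → ℂ) (p ξ : σ → ℂ) (j : ℕ)
    (R : PL τ (MvPolynomial (σ ⊕ σ) ℂ)) :
    EE s a p ξ j R = R.sum fun m r => (∏ k, a k ^ m k) * symAt (j - mF s m) p ξ r := by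
  have := EE_lft s a p ξ j 1 R
  rw [lft_one] at this
  exact this

theorem vec_lft (W : WMod σ L) (u : L) (T : Module.End ℂ L)
    (S : Module.End ℂ (MvPolynomial (σ ⊕ σ) ℂ)) (h : ∀ r, T (W.nf r u) = W.nf (S r) u)
    (R : PL τ (MvPolynomial (σ ⊕ σ) ℂ)) : lft T (vec W u R) = vec W u (lft S R) := by
  ext m
  rw [lft_apply, vec_apply, vec_apply, lft_apply, h]

theorem PSym_xl (W : WMod σ L) (s : τ → Bool) (a : τ → ℂ) (p ξ : σ → ℂ) (i : σ) :
    PSym W s a p ξ 0 (lft (W.x (X i))) (p i) := by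
  intro j R hR
  refine ⟨lft (LinearMap.mulLeft ℂ (X (Sum.inl i))) R, ?_, fun u => ?_, ?_⟩
  · intro m
    rw [lft_apply, LinearMap.mulLeft_apply, zero_add]
    have := Fil_mul' (Fil_X_inl i) (hR m)
    rwa [zero_add] at this
  · refine vec_lft W u _ _ (fun r => ?_) R
    rw [LinearMap.mulLeft_apply, ← W.x_mul_nf]
    rfl
  · rw [EE_lft, EE_sum, zero_add, Finsupp.sum, Finsupp.sum, Finset.mul_sum]
    refine Finset.sum_congr rfl fun m _ => ?_
    rw [LinearMap.mulLeft_apply, ← rename_X (R := ℂ) Sum.inl i, symAt_inl_mul, eval_X]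
    ring

theorem symAt_inr_mul (i : σ) (k : ℕ) (P : MvPolynomial (σ ⊕ σ) ℂ) (p ξ : σ → ℂ) :
    symAt (k + 1) p ξ (X (Sum.inr i) * P) = ξ i * symAt k p ξ P := by
  rw [symAt_apply, map_mul, evt, aeval_X, Sum.elim_inr, mul_assoc, Polynomial.coeff_C_mul,
    mul_comm Polynomial.X, Polynomial.coeff_mul_X]
  rfl

theorem PSym_dl (W : WMod σ L) (s : τ → Bool) (a : τ → ℂ) (p ξ : σ → ℂ) (i : σ) :
    PSym W s a p ξ 1 (lft (W.d (X i))) (ξ i) := by
  intro j R hR
  set S1 : Module.End ℂ (MvPolynomial (σ ⊕ σ) ℂ) := LinearMap.mulLeft ℂ (X (Sum.inr i)) with hS1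
  set S2 : Module.End ℂ (MvPolynomial (σ ⊕ σ) ℂ) :=
    (pderiv (Sum.inl i) : Derivation ℂ _ _).toLinearMap with hS2
  have h2 : ∀ m, lft S2 R m ∈ Fil σ (1 + j - mF s m) := by
    intro m
    rw [lft_apply, add_comm 1 j]
    exact Fil_pderiv' i (hR m)
  refine ⟨lft S1 R + lft S2 R, ?_, fun u => ?_, ?_⟩
  · intro m
    rw [Finsupp.add_apply]
    refine Submodule.add_mem _ ?_ (Fil_mono (by omega) (h2 m))
    rw [lft_apply, hS1, LinearMap.mulLeft_apply]
    by_cases hm : mF s m ≤ j + 1
    · have := Fil_mul' (Fil_X_inr i) (hR m)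
      rwa [show 1 + (j + 1 - mF s m) = 1 + j + 1 - mF s m by omega] at this
    · have h3 := hR m
      rw [show j + 1 - mF s m = 0 by omega] at h3
      rw [Fil_zero h3, mul_zero]
      exact Submodule.zero_mem _
  · ext m
    rw [lft_apply, vec_apply, vec_apply, Finsupp.add_apply, lft_apply, lft_apply]
    exact LinearMap.congr_fun (W.d_mul_nf (R m) i) u
  · rw [map_add, EE_zero h2, add_zero, EE_lft, EE_sum, Finsupp.sum, Finsupp.sum, Finset.mul_sum]
    refine Finset.sum_congr rfl fun m _ => ?_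
    rw [hS1, LinearMap.mulLeft_apply]
    by_cases hm : mF s m ≤ j
    · rw [show 1 + j - mF s m = (j - mF s m) + 1 by omega, symAt_inr_mul]
      ring
    · have h3 := hR m
      rw [show j + 1 - mF s m = 0 by omega] at h3
      rw [Fil_zero h3, mul_zero, map_zero, map_zero]
      ring

theorem sub_single {m : τ →₀ ℕ} {k : τ} (h : m k ≠ 0) :
    m - Finsupp.single k 1 + Finsupp.single k 1 = m := by
  ext j
  by_cases hj : j = k
  · subst hj
    simp only [Finsupp.coe_add, Finsupp.coe_tsub, Pi.add_apply, Pi.sub_apply,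
      Finsupp.single_eq_same]
    omega
  · simp [Finsupp.single_apply, Ne.symm hj]

theorem vec_cr (W : WMod σ L) (u : L) (k : τ) (R : PL τ (MvPolynomial (σ ⊕ σ) ℂ)) :
    cr k (vec W u R) = vec W u (cr k R) := by
  ext m
  rw [cr_apply, vec_apply, vec_apply, cr_apply]
  split_ifs
  · rw [map_zero, LinearMap.zero_apply]
  · rfl

theorem vec_an (W : WMod σ L) (u : L) (k : τ) (R : PL τ (MvPolynomial (σ ⊕ σ) ℂ)) :
    an k (vec W u R) = vec W u (an k R) := by
  ext m
  rw [an_apply, vec_apply, vec_apply, an_apply, map_smul, LinearMap.smul_apply]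

theorem EE_cr_true (s : τ → Bool) (a : τ → ℂ) (p ξ : σ → ℂ) {k : τ} (hk : s k = true) (j : ℕ)
    (R : PL τ (MvPolynomial (σ ⊕ σ) ℂ)) :
    EE s a p ξ j (cr k R) = a k * EE s a p ξ j R := by
  induction R using Finsupp.induction_linear with
  | zero => simp
  | add R S hR' hS' => rw [map_add, map_add, hR', hS', map_add, mul_add]
  | single m r =>
    rw [cr_single, EE_single, EE_single, prod_pow_single, mF_add_true s m hk]
    ring

theorem EE_cr_false (s : τ → Bool) (a : τ → ℂ) (p ξ : σ → ℂ) {k : τ} (hk : s k = false) (j : ℕ)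
    (R : PL τ (MvPolynomial (σ ⊕ σ) ℂ)) :
    EE s a p ξ (1 + j) (cr k R) = a k * EE s a p ξ j R := by
  induction R using Finsupp.induction_linear with
  | zero => simp
  | add R S hR' hS' => rw [map_add, map_add, hR', hS', map_add, mul_add]
  | single m r =>
    rw [cr_single, EE_single, EE_single, prod_pow_single, mF_add_false s m hk,
      show 1 + j - (mF s m + 1) = j - mF s m by omega]
    ring

theorem PSym_cr_true (W : WMod σ L) (s : τ → Bool) (a : τ → ℂ) (p ξ : σ → ℂ) {k : τ}
    (hk : s k = true) : PSym W s a p ξ 0 (cr k) (a k) := by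
  intro j R hR
  refine ⟨cr k R, ?_, fun u => vec_cr W u k R, ?_⟩
  · intro m
    rw [cr_apply]
    split_ifs with hm
    · exact Submodule.zero_mem _
    · have := hR (m - Finsupp.single k 1)
      rwa [← mF_add_true s _ hk 1, sub_single hm, ← zero_add j] at this
  · rw [zero_add, EE_cr_true s a p ξ hk]

theorem PSym_cr_false (W : WMod σ L) (s : τ → Bool) (a : τ → ℂ) (p ξ : σ → ℂ) {k : τ}
    (hk : s k = false) : PSym W s a p ξ 1 (cr k) (a k) := by
  intro j R hR
  refine ⟨cr k R, ?_, fun u => vec_cr W u k R, EE_cr_false s a p ξ hk j R⟩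
  intro m
  rw [cr_apply]
  split_ifs with hm
  · exact Submodule.zero_mem _
  · have h1 := hR (m - Finsupp.single k 1)
    have h2 := mF_add_false s (m - Finsupp.single k 1) hk
    rw [sub_single hm] at h2
    rw [h2]
    exact Fil_mono (by omega) h1

theorem PSym_an_true (W : WMod σ L) (s : τ → Bool) (a : τ → ℂ) (p ξ : σ → ℂ) {k : τ}
    (hk : s k = true) : PSym W s a p ξ 1 (an k) 0 := by
  intro j R hR
  have h1 := an_Fam_true hR hk
  refine ⟨an k R, h1.mono (by omega), fun u => vec_an W u k R, ?_⟩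
  rw [zero_mul]
  exact EE_zero fun m => Fil_mono (by omega) (h1 m)

theorem PSym_an_false (W : WMod σ L) (s : τ → Bool) (a : τ → ℂ) (p ξ : σ → ℂ) {k : τ}
    (hk : s k = false) : PSym W s a p ξ 0 (- an k) 0 := by
  intro j R hR
  have h1 := an_Fam_false hR hk
  refine ⟨- an k R, fun m => ?_, fun u => ?_, ?_⟩
  · exact Submodule.neg_mem _ (Fil_mono (by omega) (h1 m))
  · rw [LinearMap.neg_apply, vec_an, map_neg]
  · rw [zero_mul, map_neg, zero_add, EE_zero h1, neg_zero]

/-- The symbols of the outer product. -/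
theorem PSym_nf (W : WMod σ L) (s : τ → Bool) (a : τ → ℂ) (p ξ : σ → ℂ) {k : ℕ}
    {P : MvPolynomial ((σ ⊕ τ) ⊕ (σ ⊕ τ)) ℂ} (hP : P ∈ Fil (σ ⊕ τ) (k + 1)) :
    PSym W s a p ξ k ((W.prod s).nf P)
      (symAt k (Sum.elim p fun k => if s k then a k else 0)
        (Sum.elim ξ fun k => if s k then 0 else a k) P) := by
  refine (PSym_symLike W s a p ξ).nf (W.prod s) _ _ ?_ ?_ hP
  · rintro (i | k)
    · rw [W.prod_x]
      exact PSym_xl W s a p ξ i
    · cases h : s k
      · rw [W.prod_x_false s k h, Sum.elim_inr, h]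
        exact PSym_an_false W s a p ξ h
      · rw [W.prod_x_true s k h, Sum.elim_inr, if_pos h]
        exact PSym_cr_true W s a p ξ h
  · rintro (i | k)
    · rw [W.prod_d]
      exact PSym_dl W s a p ξ i
    · cases h : s k
      · rw [W.prod_d_false s k h, Sum.elim_inr, h]
        exact PSym_cr_false W s a p ξ h
      · rw [W.prod_d_true s k h, Sum.elim_inr, if_pos h]
        exact PSym_an_true W s a p ξ h

/-- **The characteristic variety of the outer product** with functions (`s k = true`: any point `a k` of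
the zero section) and delta functions (`s k = false`: any covector `a k` over the origin). -/
theorem WMod.InCh.prod {W : WMod σ L} {p ξ : σ → ℂ} (hCh : W.InCh p ξ) {f : MvPolynomial σ ℂ}
    (hL : W.LSimple f) (hp : eval p f ≠ 0) (s : τ → Bool) (a : τ → ℂ) :
    (W.prod s).InCh (Sum.elim p fun k => if s k then a k else 0)
      (Sum.elim ξ fun k => if s k then 0 else a k) := by
  obtain ⟨u, hu⟩ := @exists_ne L hL.nt 0
  refine (hL.prod s).inCh_of_one (u := b0 u) ?_ ?_ ?_
  · rw [eval_rename]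
    exact hp
  · intro h
    exact hu (b0_inj (by rw [h, map_zero]))
  · intro k P hP hPu
    obtain ⟨R, h1, h2, h3⟩ := PSym_nf W s a p ξ hP 0 (Finsupp.single 0 1) (by
      intro m
      rw [Finsupp.single_apply]
      split_ifs with hm
      · subst hm
        have := Fil_x (σ := σ) 1
        rw [map_one] at this
        simpa [mF] using this
      · exact Submodule.zero_mem _)
    have h4 : vec W u (Finsupp.single 0 1 : PL τ (MvPolynomial (σ ⊕ σ) ℂ)) = b0 u := by
      ext m
      rw [vec_apply, b0_apply, Finsupp.single_apply, Finsupp.single_apply]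
      split_ifs
      · rw [W.nf_one]; rfl
      · rw [map_zero]; rfl
    have h5 := h2 u
    rw [h4, hPu] at h5
    have h6 : EE s a p ξ k R = 0 := by
      rw [EE_sum, Finsupp.sum]
      refine Finset.sum_eq_zero fun m _ => ?_
      have h7 : W.nf (R m) u = 0 := by
        rw [← vec_apply, ← h5]
        rfl
      have h8 := h1 m
      rw [add_zero] at h8
      by_cases hm : mF s m ≤ k
      · rw [show k + 1 - mF s m = (k - mF s m) + 1 by omega] at h8
        rw [(W.inCh_iff p ξ).1 hCh u hu _ _ h8 h7, mul_zero]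
      · rw [show k + 1 - mF s m = 0 by omega] at h8
        rw [Fil_zero h8, map_zero, mul_zero]
    rw [add_zero, h6, EE_single] at h3
    have h9 : symAt (0 - mF s (0 : τ →₀ ℕ)) p ξ (1 : MvPolynomial (σ ⊕ σ) ℂ) = 1 := by
      have := symAt_inl (1 : MvPolynomial σ ℂ) p ξ
      rw [map_one (rename Sum.inl), map_one (eval p)] at this
      rw [Nat.zero_sub]
      exact this
    rw [h9] at h3
    simpa using h3.symm

end Pool.DM
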