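import Pool.Agent.Work.MP_c20ce7_up.AR1
import Pool.Agent.Work.MP_c20ce7_dm70.S10
import Pool.Agent.Work.MP_c20ce7_dm70.S8

set_option autoImplicit false
set_option linter.unusedSectionVars false
set_option linter.unusedSimpArgs false

/-!
# The model of the abstract row extension
-/

open MvPolynomial

noncomputable section

namespace Pool.DM

section Inv

variable {τ : Type} [Fintype τ] [DecidableEq τ] {L : Type} [AddCommGroup L] [Module ℂ L]
variable {W : WMod τ L} {q : MvPolynomial τ ℂ}

theorem WMod.d_invx (hq : Function.Bijective (W.x q)) (i : τ) :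
    W.d (X i) * W.invx q hq = W.invx q hq * W.d (X i) -
      W.invx q hq * W.invx q hq * W.x (pderiv i q) := by
  refine W.x_mul_cancel hq ?_
  have h1 : W.x q * W.d (X i) = W.d (X i) * W.x q - W.x (pderiv i q) := by
    rw [W.d_mul_x]; abel
  rw [← mul_assoc, h1, sub_mul, mul_assoc, W.x_invx, mul_one, mul_sub, ← mul_assoc, W.x_invx,
    one_mul, ← mul_assoc, ← mul_assoc, W.x_invx, one_mul, W.invx_comm]

/-- The powers of the inverse function. -/
theorem WMod.d_invx_pow (hq : Function.Bijective (W.x q)) (i : τ) (n : ℕ) :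
    W.d (X i) * W.invx q hq ^ n = W.invx q hq ^ n * W.d (X i) -
      (n : ℂ) • (W.invx q hq ^ (n + 1) * W.x (pderiv i q)) := by
  induction n with
  | zero => simp
  | succ n ih =>
    rw [pow_succ, ← mul_assoc, ih, sub_mul, mul_assoc, W.d_invx, mul_sub, smul_mul_assoc,
      mul_assoc (W.invx q hq ^ (n + 1)), ← W.invx_comm]
    push_cast
    rw [add_smul, one_smul]
    simp only [pow_succ, mul_assoc]
    abel

theorem WMod.invx_pow_comm (hq : Function.Bijective (W.x q)) (n : ℕ) (g : MvPolynomial τ ℂ) :
    W.x g * W.invx q hq ^ n = W.invx q hq ^ n * W.x g := by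
  induction n with
  | zero => simp
  | succ n ih => rw [pow_succ, ← mul_assoc, ih, mul_assoc, ← W.invx_comm, mul_assoc]

theorem WMod.invx_pow_inj (hq : Function.Bijective (W.x q)) (n : ℕ) :
    Function.Injective (W.invx q hq ^ n : Module.End ℂ L) := by
  have h0 : Function.Injective (W.invx q hq) :=
    (LinearEquiv.ofBijective (W.x q) hq).symm.injective
  induction n with
  | zero => exact fun _ _ h => h
  | succ n ih =>
    rw [pow_succ]
    exact ih.comp h0

end Inv

namespace Row

variable {K R E C : Type} [Fintype K] [DecidableEq K] [Fintype R] [DecidableEq R]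
  [Fintype E] [DecidableEq E] [Fintype C] [DecidableEq C]

/-- The minor in the old coordinates. -/
def q0 (p : R → E → K) (J : R → E) : MvPolynomial K ℂ :=
  (Matrix.of fun b k => (X (p b (J k)) : MvPolynomial K ℂ)).det

theorem rename_q0 (p : R → E → K) (J : R → E) (σ : Type) :
    rename (Sum.inl : K → K ⊕ σ) (q0 p J) = qm p J σ := by
  rw [q0, qm, AlgHom.map_det]
  congr 1
  ext1 b k
  simp only [AlgHom.mapMatrix_apply, Matrix.map_apply, Matrix.of_apply, rename_X, gm]

theorem pderiv_inr_rename (q : MvPolynomial K ℂ) {σ : Type} (j : σ) :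
    pderiv (Sum.inr j) (rename (Sum.inl : K → K ⊕ σ) q) = 0 := by
  induction q using MvPolynomial.induction_on with
  | C a => simp
  | add p q hp hq => simp [hp, hq]
  | mul_X p i hp => 
    rw [map_mul, rename_X, Derivation.leibniz, hp, pderiv_X_of_ne (by simp)]
    simp

/-- The signature: `T` of function type, `R` of delta type. -/
def sg (C : Type) (J : R → E) : (C × R) ⊕ (C × Jc J) → Bool := Sum.elim (fun _ => true) fun _ => false

theorem pderiv_det_zero {σ n : Type} [Fintype n] [DecidableEq n] (j : σ)
    (M : Matrix n n (MvPolynomial σ ℂ)) (h : ∀ a b, pderiv j (M a b) = 0) : pderiv j M.det = 0 := by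
  rw [Matrix.det_apply, map_sum]
  refine Finset.sum_eq_zero fun s _ => ?_
  have h1 : pderiv j (∏ i, M (s i) i) = 0 :=
    Finset.prod_induction _ (fun x => pderiv j x = 0)
      (fun a b ha hb => by rw [Derivation.leibniz, ha, hb, smul_zero, smul_zero, add_zero])
      pderiv_one (fun i _ => h _ _)
  rw [Units.smul_def, map_zsmul, h1, smul_zero]

theorem pderiv_q0 (p : R → E → K) (hp : ∀ b b' e e', p b e = p b' e' → b = b' ∧ e = e')
    (J : R → E) (σ : Type) (b : R) (e : E) :
    pderiv (Sum.inl (p b e)) (qm p J σ) =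
      ∑ k, (if J k = e then (gm p J σ).adjugate k b else 0) := by
  have h0 := gm_adj p J σ b b
  rw [if_pos rfl] at h0
  have h1 : ∀ k, pderiv (Sum.inl (p b e)) ((gm p J σ).adjugate k b) = 0 := by
    intro k
    rw [Matrix.adjugate_apply]
    refine pderiv_det_zero _ _ fun a c => ?_
    by_cases ha : a = b
    · subst ha
      rw [Matrix.updateRow_self]
      by_cases hc : c = k
      · subst hc; rw [Pi.single_eq_same]; exact pderiv_one
      · rw [Pi.single_eq_of_ne hc, map_zero]
    · rw [Matrix.updateRow_ne ha, gm, Matrix.of_apply, pderiv_X_of_ne]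
      intro h
      exact ha (hp _ _ _ _ (Sum.inl_injective h)).1
  rw [← h0, map_sum]
  refine Finset.sum_congr rfl fun k _ => ?_
  rw [Derivation.leibniz, h1 k, smul_zero, zero_add]
  by_cases hk : J k = e
  · subst hk
    rw [if_pos rfl, pderiv_X_self, smul_eq_mul, mul_one]
  · rw [if_neg hk, pderiv_X_of_ne, smul_zero]
    intro h
    exact hk (hp _ _ _ _ (Sum.inl_injective h)).2

theorem pderiv_q0_out (p : R → E → K) (J : R → E) (σ : Type) (k : K) (hk : ∀ b e, p b e ≠ k) :
    pderiv (Sum.inl k) (qm p J σ) = 0 := by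
  rw [qm]
  refine pderiv_det_zero _ _ fun a c => ?_
  rw [gm, Matrix.of_apply, pderiv_X_of_ne]
  intro h
  exact hk _ _ (Sum.inl_injective h)

end Row

end Pool.DM
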