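import Pool.Agent.Work.MP_c20ce7_dm70.E1

set_option autoImplicit false
set_option linter.unusedSectionVars false
set_option linter.unusedSimpArgs false

/-!
# The model: fields of `ARow`
-/

open MvPolynomial

noncomputable section

namespace Pool.DM

namespace Row

variable {K R E C : Type} [Fintype K] [DecidableEq K] [Fintype R] [DecidableEq R]
  [Fintype E] [DecidableEq E] [Fintype C] [DecidableEq C]

variable {L : Type} [AddCommGroup L] [Module ℂ L]

section Model

variable (p : R → E → K) (J : R → E) (hJ : Function.Injective J) (V1 : WMod K L)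
  (hq0 : Function.Bijective (V1.x (q0 p J)))

/-- The outer product. -/
abbrev PP (C : Type) [Fintype C] [DecidableEq C] (J : R → E) (V1 : WMod K L) :
    WMod (Tau K C J) (PL ((C × R) ⊕ (C × Jc J)) L) := V1.prod (sg C J)

include hq0 in
theorem qm_bij : Function.Bijective ((PP C J V1).x (qm p J ((C × R) ⊕ (C × Jc J)))) := by
  rw [← rename_q0, V1.prod_x_inl]
  exact lft_bij hq0

/-- The model. -/
abbrev VV (C : Type) [Fintype C] [DecidableEq C] : WMod (Kap K C E) (PL ((C × R) ⊕ (C × Jc J)) L) :=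
  (PP C J V1).coord (qm_bij (C := C) p J V1 hq0) (coord p J hJ)

/-- The inverse of the minor. -/
abbrev iq (C : Type) [Fintype C] [DecidableEq C] : Module.End ℂ (PL ((C × R) ⊕ (C × Jc J)) L) :=
  (PP C J V1).invx _ (qm_bij (C := C) p J V1 hq0)

theorem PP_comm (i j : Tau K C J) (h : i ≠ j) :
    (PP C J V1).x (X j) * (PP C J V1).d (X i) = (PP C J V1).d (X i) * (PP C J V1).x (X j) := by
  have h1 := (PP C J V1).comm i j
  rw [if_neg h, sub_eq_zero] at h1
  exact h1.symm

theorem xx (f g : MvPolynomial (Tau K C J) ℂ) :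
    (PP C J V1).x f * (PP C J V1).x g = (PP C J V1).x g * (PP C J V1).x f := by
  rw [← map_mul, mul_comm, map_mul]

theorem VV_ath (a : C) (b : R) :
    (VV p J hJ V1 hq0 C).ath p a b = (PP C J V1).d (X (Sum.inr (Sum.inl (a, b)))) := by
  rw [← d_T p J hJ (qm_bij (C := C) p J V1 hq0)]
  unfold WMod.ath
  refine Finset.sum_congr rfl fun e _ => ?_
  rw [WMod.coord_x, bind₁_X_right, Ym]

/-- The covariant derivative. -/
theorem VV_nab (hp : ∀ b b' e e', p b e = p b' e' → b = b' ∧ e = e') (b : R) (e : E) :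
    (VV p J hJ V1 hq0 C).d (X (Sum.inl (p b e))) + ∑ a, (VV p J hJ V1 hq0 C).d (X (Sum.inr (a, e))) *
        (PP C J V1).x (X (Sum.inr (Sum.inl (a, b)))) =
      (PP C J V1).d (X (Sum.inl (p b e))) + (Fintype.card C : ℂ) • (iq p J V1 hq0 C *
        (PP C J V1).x (pderiv (Sum.inl (p b e)) (qm p J ((C × R) ⊕ (C × Jc J))))) := by
  rw [d_old p J hJ (qm_bij (C := C) p J V1 hq0) (p b e)]
  have h1 : ∀ (a : C) (e' : E), (∑ b', if p b' e' = p b e then
      (X (Sum.inr (Sum.inl (a, b'))) : MvPolynomial (Tau K C J) ℂ) else 0) =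
      if e' = e then X (Sum.inr (Sum.inl (a, b))) else 0 := by
    intro a e'
    by_cases he : e' = e
    · subst he
      rw [if_pos rfl, Finset.sum_eq_single b]
      · rw [if_pos rfl]
      · intro b' _ hb
        rw [if_neg]
        intro h
        exact hb (hp _ _ _ _ h).1
      · intro h; exact absurd (Finset.mem_univ _) h
    · rw [if_neg he]
      refine Finset.sum_eq_zero fun b' _ => ?_
      rw [if_neg]
      intro h
      exact he (hp _ _ _ _ h).2
  have h2 : ∀ a : C, ∑ e', (PP C J V1).x (∑ b', if p b' e' = p b e then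
      (X (Sum.inr (Sum.inl (a, b'))) : MvPolynomial (Tau K C J) ℂ) else 0) *
        (VV p J hJ V1 hq0 C).d (X (Sum.inr (a, e'))) =
      (PP C J V1).x (X (Sum.inr (Sum.inl (a, b)))) * (VV p J hJ V1 hq0 C).d (X (Sum.inr (a, e))) := by
    intro a
    rw [Finset.sum_eq_single e]
    · rw [h1, if_pos rfl]
    · intro e' _ he
      rw [h1, if_neg he, map_zero, zero_mul]
    · intro h; exact absurd (Finset.mem_univ _) h
  have h3 : ∀ a : C, (VV p J hJ V1 hq0 C).d (X (Sum.inr (a, e))) *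
      (PP C J V1).x (X (Sum.inr (Sum.inl (a, b)))) =
      (PP C J V1).x (X (Sum.inr (Sum.inl (a, b)))) * (VV p J hJ V1 hq0 C).d (X (Sum.inr (a, e))) +
      iq p J V1 hq0 C *
        (PP C J V1).x (pderiv (Sum.inl (p b e)) (qm p J ((C × R) ⊕ (C × Jc J)))) := by
    intro a
    have h4 := d_row p J hJ (qm_bij (C := C) p J V1 hq0) a e (X (Sum.inr (Sum.inl (a, b))))
    rw [A2_T, if_pos rfl, ← pderiv_q0 p hp J] at h4
    rw [← h4]
    abel
  simp only [h2, h3]
  rw [Finset.sum_add_distrib, Finset.sum_const, Finset.card_univ, add_assoc, Nat.cast_smul_eq_nsmul]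

/-- The canonical map. -/
def lam0 (C : Type) [Fintype C] [DecidableEq C] : L →ₗ[ℂ] PL ((C × R) ⊕ (C × Jc J)) L :=
  (iq p J V1 hq0 C ^ Fintype.card C : Module.End ℂ _) ∘ₗ b0

theorem lam0_apply (w : L) : lam0 p J V1 hq0 C w = (iq p J V1 hq0 C ^ Fintype.card C) (b0 w) := rfl

theorem lam0_inj : Function.Injective (lam0 p J V1 hq0 C) := by
  intro u v h
  exact b0_inj ((PP C J V1).invx_pow_inj (qm_bij (C := C) p J V1 hq0) _ h)

theorem lam0_x (g : MvPolynomial (Tau K C J) ℂ) (w : L) :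
    (PP C J V1).x g (lam0 p J V1 hq0 C w) =
      (iq p J V1 hq0 C ^ Fintype.card C) ((PP C J V1).x g (b0 w)) := by
  rw [lam0_apply, ← Module.End.mul_apply, (PP C J V1).invx_pow_comm, Module.End.mul_apply]

theorem lam0_xl (g : MvPolynomial K ℂ) (w : L) :
    (PP C J V1).x (rename Sum.inl g) (lam0 p J V1 hq0 C w) = lam0 p J V1 hq0 C (V1.x g w) := by
  rw [lam0_x, (V1.prod_b0 (sg C J) w).1]
  rfl

theorem lam0_Vx (g : MvPolynomial K ℂ) (w : L) :
    (VV p J hJ V1 hq0 C).x (rename Sum.inl g) (lam0 p J V1 hq0 C w) =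
      lam0 p J V1 hq0 C (V1.x g w) := by
  rw [← lam0_xl, WMod.coord_x, bind₁_rename]
  congr 2
  have h1 : (bind₁ (Ym p J C ∘ Sum.inl) : MvPolynomial K ℂ →ₐ[ℂ] _) = rename Sum.inl := by
    apply MvPolynomial.algHom_ext
    intro k
    rw [bind₁_X_right, rename_X]
    rfl
  rw [h1]

theorem lam0_d (j : Tau K C J) (w : L) :
    (PP C J V1).d (X j) (lam0 p J V1 hq0 C w) =
      (iq p J V1 hq0 C ^ Fintype.card C) ((PP C J V1).d (X j) (b0 w)) -
      (Fintype.card C : ℂ) • (iq p J V1 hq0 C ^ (Fintype.card C + 1)) ((PP C J V1).x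
        (pderiv j (qm p J ((C × R) ⊕ (C × Jc J)))) (b0 w)) := by
  rw [lam0_apply, ← Module.End.mul_apply, (PP C J V1).d_invx_pow]
  rfl

/-- The model is a row extension. -/
def arow (hp : ∀ b b' e e', p b e = p b' e' → b = b' ∧ e = e') :
    ARow (C := C) p V1 (VV p J hJ V1 hq0 C) where
  T a b := (PP C J V1).x (X (Sum.inr (Sum.inl (a, b))))
  lam := lam0 p J V1 hq0 C
  T_comm a b a' b' := xx J V1 _ _
  T_x a b k := by
    rw [WMod.coord_x]
    exact xx J V1 _ _
  T_d a b k hk := by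
    have h1 := d_old p J hJ (qm_bij (C := C) p J V1 hq0) k
    have h2 : ∀ (a : C) (e' : E), (∑ b', if p b' e' = k then
        (X (Sum.inr (Sum.inl (a, b'))) : MvPolynomial (Tau K C J) ℂ) else 0) = 0 :=
      fun a e' => Finset.sum_eq_zero fun b' _ => if_neg (hk b' e')
    simp only [h2, map_zero, zero_mul, Finset.sum_const_zero, add_zero] at h1
    rw [← h1]
    exact PP_comm J V1 _ _ (by simp)
  T_th a b a' b' := by
    rw [VV_ath, (PP C J V1).comm]
    simp
  T_nab b e a' b' := by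
    rw [VV_nab p J hJ V1 hq0 hp, add_mul, mul_add, PP_comm J V1 _ _ (by simp), smul_mul_assoc,
      mul_smul_comm, mul_assoc, xx J V1, ← mul_assoc, ← mul_assoc, ← (PP C J V1).invx_comm]
  lam_x k w := by
    rw [← rename_X (R := ℂ) Sum.inl k]
    exact lam0_Vx p J hJ V1 hq0 (X k) w
  lam_d k w hk := by
    have h1 := d_old p J hJ (qm_bij (C := C) p J V1 hq0) k
    have h2 : ∀ (a : C) (e' : E), (∑ b', if p b' e' = k then
        (X (Sum.inr (Sum.inl (a, b'))) : MvPolynomial (Tau K C J) ℂ) else 0) = 0 :=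
      fun a e' => Finset.sum_eq_zero fun b' _ => if_neg (hk b' e')
    simp only [h2, map_zero, zero_mul, Finset.sum_const_zero, add_zero] at h1
    rw [← h1, lam0_d, pderiv_q0_out p J _ k hk, map_zero, LinearMap.zero_apply, map_zero, smul_zero,
      sub_zero, ← rename_X (R := ℂ) Sum.inl k, (V1.prod_b0 (sg C J) w).2.1]
    rfl
  lam_x2 a e w := by
    rw [WMod.coord_x, bind₁_X_right, Ym, map_add, LinearMap.add_apply, map_sum, LinearMap.sum_apply]
    have h1 : (PP C J V1).x (if h : ∀ k, J k ≠ e then (X (Sum.inr (Sum.inr (a, ⟨e, h⟩))) :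
        MvPolynomial (Tau K C J) ℂ) else 0) (lam0 p J V1 hq0 C w) = 0 := by
      rw [lam0_x]
      split_ifs with h
      · rw [(V1.prod_b0 (sg C J) w).2.2.2 (Sum.inr (a, ⟨e, h⟩)) rfl, map_zero]
      · rw [map_zero, LinearMap.zero_apply, map_zero]
    rw [h1, add_zero]
    refine Finset.sum_congr rfl fun b _ => ?_
    rw [map_mul, Module.End.mul_apply, ← rename_X (R := ℂ) Sum.inl (p b e), lam0_xl]
  lam_th a b w := by
    rw [VV_ath, lam0_d, (V1.prod_b0 (sg C J) w).2.2.1 (Sum.inl (a, b)) rfl, map_zero, zero_sub,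
      ← rename_q0, pderiv_inr_rename, map_zero, LinearMap.zero_apply, map_zero, smul_zero, neg_zero]
  lam_nab b e w := by
    rw [VV_nab p J hJ V1 hq0 hp, LinearMap.add_apply, lam0_d, LinearMap.smul_apply,
      Module.End.mul_apply, lam0_x, ← Module.End.mul_apply (iq p J V1 hq0 C), ← pow_succ',
      sub_add_cancel, ← rename_X (R := ℂ) Sum.inl (p b e), (V1.prod_b0 (sg C J) w).2.1]
    rfl

end Model

end Row

/-- Composition of an abstract row extension with a map of modules. -/
def ARow.comp {K R E C : Type} [Fintype K] [DecidableEq K] [Fintype R] [DecidableEq R] [Fintype E]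
    [DecidableEq E] [Fintype C] [DecidableEq C] {L' L B : Type} [AddCommGroup L'] [Module ℂ L']
    [AddCommGroup L] [Module ℂ L] [AddCommGroup B] [Module ℂ B] {p : R → E → K} {V' : WMod K L'}
    {V1 : WMod K L} {V : WMod (K ⊕ (C × E)) B} (ar : ARow (C := C) p V1 V) (ι : L' →ₗ[ℂ] L)
    (hx : ∀ k w, ι (V'.x (X k) w) = V1.x (X k) (ι w)) (hd : ∀ k w, ι (V'.d (X k) w) = V1.d (X k) (ι w)) :
    ARow (C := C) p V' V where
  T := ar.T
  lam := ar.lam ∘ₗ ι
  T_comm := ar.T_comm
  T_x := ar.T_x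
  T_d := ar.T_d
  T_th := ar.T_th
  T_nab := ar.T_nab
  lam_x k w := by
    rw [LinearMap.comp_apply, LinearMap.comp_apply, hx, ar.lam_x]
  lam_d k w hk := by
    rw [LinearMap.comp_apply, LinearMap.comp_apply, hd, ar.lam_d k _ hk]
  lam_x2 a e w := by
    rw [LinearMap.comp_apply, ar.lam_x2]
    refine Finset.sum_congr rfl fun b _ => ?_
    rw [LinearMap.comp_apply, hx]
  lam_th a b w := ar.lam_th a b _
  lam_nab b e w := by
    rw [LinearMap.comp_apply, LinearMap.comp_apply, hd]
    exact ar.lam_nab b e _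

end Pool.DM
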