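import Pool.Agent.Work.MP_c20ce7_dm70.E2

set_option autoImplicit false
set_option linter.unusedSectionVars false
set_option linter.unusedSimpArgs false

/-!
# Existence of the abstract row extension
-/

open MvPolynomial

noncomputable section

namespace Pool.DM

attribute [local instance] instAddCommGroupM instModuleMvPolynomialComplexM instModuleComplexLoc

namespace Row

variable {K R E C : Type} [Fintype K] [DecidableEq K] [Fintype R] [DecidableEq R]
  [Fintype E] [DecidableEq E] [Fintype C] [DecidableEq C]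

theorem exists_arow (p : R → E → K) (hp : ∀ b b' e e', p b e = p b' e' → b = b' ∧ e = e')
    {L' : Type} [AddCommGroup L'] [Module ℂ L'] (V' : WMod K L') (hS : V'.Simple) (hG : V'.Growth)
    (J : R → E) (hJ : Function.Injective J) (hq : ¬ LocNil (V'.x (q0 p J))) :
    ∃ (B : Type) (_ : AddCommGroup B) (_ : Module ℂ B) (V : WMod (K ⊕ (C × E)) B)
      (ar : ARow (C := C) p V' V), V.Growth ∧ Function.Injective ar.lam ∧
      (∀ N : Submodule ℂ B, V.Stable N → N ≠ ⊥ → ∃ w : L', w ≠ 0 ∧ ar.lam w ∈ N) ∧
      ∀ x' ξ' : K → ℂ, V'.InCh x' ξ' → eval x' (q0 p J) ≠ 0 → ∀ x ξ : K ⊕ (C × E) → ℂ,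
        (∀ k, x (Sum.inl k) = x' k) → (∀ k, ξ (Sum.inl k) = ξ' k) →
        (∀ a e, x (Sum.inr (a, e)) = 0) →
        (∀ a b, ∑ e, x' (p b e) * ξ (Sum.inr (a, e)) = 0) → V.InCh x ξ := by
  have hinj : Function.Injective (V'.x (q0 p J)) := by
    rcases V'.nilp_or_inj hS (q0 p J) with h | h
    · exact absurd (fun u => by
        obtain ⟨k, hk⟩ := h u
        exact ⟨k, by rw [← map_pow]; exact hk⟩) hq
    · exact h
  have hloc := V'.isLoc (q0 p J)
  set V1 := V'.loc (Submonoid.powers (q0 p J)) with hV1
  set ι := V'.ι (Submonoid.powers (q0 p J)) with hι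
  have hL1 : V1.LSimple (q0 p J) := hloc.lsimple hS hinj
  have hLP : (PP C J V1).LSimple (qm p J ((C × R) ⊕ (C × Jc J))) := by
    rw [← rename_q0]
    exact hL1.prod (sg C J)
  have hLV : (VV p J hJ V1 hL1.bij C).LSimple (qm p J (C × E)) :=
    hLP.coord (coord p J hJ) _ (bind_qm p J C) (old_poly p J hJ)
  refine ⟨_, _, _, VV p J hJ V1 hL1.bij C, (arow p J hJ V1 hL1.bij hp).comp ι
    (fun k w => hloc.hx (X k) w) (fun k w => hloc.hd k w), ?_, ?_, ?_, ?_⟩
  · exact ((hloc.growth hG).prod (sg C J)).coord _ (coord p J hJ) (card_eq J hJ)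
  · exact (lam0_inj p J V1 hL1.bij).comp (hloc.inj hinj)
  · intro N hN hN0
    obtain ⟨w, -, hw⟩ := Submodule.exists_mem_ne_zero_of_ne_bot hS.2.1
    obtain ⟨k, hk⟩ := hLV.exists_pow N hN hN0 (lam0 p J V1 hL1.bij C (ι w))
    refine ⟨V'.x (q0 p J ^ k) w, ?_, ?_⟩
    · intro h0
      exact hw (V'.x_pow_inj hinj k (by rw [h0, map_zero]))
    · have h1 : (VV p J hJ V1 hL1.bij C).x (qm p J (C × E) ^ k) (lam0 p J V1 hL1.bij C (ι w)) =
          lam0 p J V1 hL1.bij C (ι (V'.x (q0 p J ^ k) w)) := by
        rw [← rename_q0, ← map_pow, lam0_Vx, hloc.hx]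
      rw [h1] at hk
      exact hk
  · intro x' ξ' hCh hx' x ξ h1 h2 h3 h4
    have hCh1 : V1.InCh x' ξ' := (hloc.inCh hinj hx').2 hCh
    let a : (C × R) ⊕ (C × Jc J) → ℂ := Sum.elim (fun _ => 0) fun r => ξ (Sum.inr (r.1, r.2.1))
    have hChP := hCh1.prod hL1 hx' (sg C J) a
    refine hChP.coord_pull _ (coord p J hJ) ?_ ?_ ?_
    · rw [← rename_q0, eval_rename]
      exact hx'
    · rintro (k | ⟨c, e⟩)
      · rw [Ym, eval_X, h1]
        rfl
      · rw [Ym, h3, map_add, map_sum]
        have h5 : ∀ b, eval (Sum.elim x' fun k => if sg C J k then a k else 0)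
            (X (Sum.inr (Sum.inl (c, b))) * X (Sum.inl (p b e)) : MvPolynomial (Tau K C J) ℂ) = 0 := by
          intro b
          rw [map_mul, eval_X]
          simp [sg, a]
        simp only [h5, Finset.sum_const_zero, zero_add]
        split_ifs with h
        · rw [eval_X]
          simp [sg]
        · rw [map_zero]
    · rintro (k | ⟨c, b⟩ | ⟨c, e⟩)
      · rw [Fintype.sum_sum_type, Fintype.sum_prod_type]
        simp only [pd_inl]
        have h5 : ∀ (c : C) (e : E), eval (Sum.elim x' fun k => if sg C J k then a k else 0)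
            (∑ b, if p b e = k then (X (Sum.inr (Sum.inl (c, b))) : MvPolynomial (Tau K C J) ℂ)
              else 0) = 0 := by
          intro c e
          rw [map_sum]
          refine Finset.sum_eq_zero fun b _ => ?_
          split_ifs
          · rw [eval_X]; simp [sg, a]
          · rw [map_zero]
        simp only [h5, zero_mul, Finset.sum_const_zero, add_zero]
        rw [Finset.sum_eq_single k]
        · rw [Ym, pderiv_X_self, map_one, one_mul, h2]
          rfl
        · intro k' _ hk
          rw [Ym, pderiv_X_of_ne (by simpa using hk), map_zero, zero_mul]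
        · intro h; exact absurd (Finset.mem_univ _) h
      · rw [Fintype.sum_sum_type, Fintype.sum_prod_type]
        have h5 : ∑ k, eval (Sum.elim x' fun k => if sg C J k then a k else 0)
            (pderiv (Sum.inr (Sum.inl (c, b))) (Ym p J C (Sum.inl k))) * ξ (Sum.inl k) = 0 :=
          Finset.sum_eq_zero fun k _ => by rw [Ym, pderiv_X_of_ne (by simp), map_zero, zero_mul]
        rw [h5, zero_add, Finset.sum_eq_single c]
        · simp only [pd_T, if_true, eval_X, Sum.elim_inl]
          rw [h4 c b]
          simp [sg]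
        · intro c' _ hc
          refine Finset.sum_eq_zero fun e _ => ?_
          rw [pd_T, if_neg (Ne.symm hc), map_zero, zero_mul]
        · intro h; exact absurd (Finset.mem_univ _) h
      · rw [Fintype.sum_sum_type, Fintype.sum_prod_type]
        have h5 : ∑ k, eval (Sum.elim x' fun k => if sg C J k then a k else 0)
            (pderiv (Sum.inr (Sum.inr (c, e))) (Ym p J C (Sum.inl k))) * ξ (Sum.inl k) = 0 :=
          Finset.sum_eq_zero fun k _ => by rw [Ym, pderiv_X_of_ne (by simp), map_zero, zero_mul]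
        rw [h5, zero_add, Finset.sum_eq_single c, Finset.sum_eq_single e.1]
        · rw [pd_R, if_pos ⟨rfl, rfl⟩, map_one, one_mul]
          simp [sg, a]
        · intro e' _ he
          rw [pd_R, if_neg (fun h => he h.2.symm), map_zero, zero_mul]
        · intro h; exact absurd (Finset.mem_univ _) h
        · intro c' _ hc
          refine Finset.sum_eq_zero fun e' _ => ?_
          rw [pd_R, if_neg (fun h => hc h.1.symm), map_zero, zero_mul]
        · intro h; exact absurd (Finset.mem_univ _) h

end Row

end Pool.DM
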