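import Pool.Agent.Work.MP_c20ce7_dm90.T3

set_option autoImplicit false
set_option linter.unusedSectionVars false

/-!
# Order filtration of the Weyl algebra: symbols, composition, denominators
-/

open MvPolynomial

noncomputable section

namespace Pool.DM

variable {σ : Type} [Fintype σ] [DecidableEq σ] {L : Type} [AddCommGroup L] [Module ℂ L]

/-- The degree of an exponent in the variables `ξ`. -/
def xd (m : σ ⊕ σ →₀ ℕ) : ℕ := ∑ i, m (Sum.inr i)

theorem xd_add (a b : σ ⊕ σ →₀ ℕ) : xd (a + b) = xd a + xd b := by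
  simp [xd, Finset.sum_add_distrib]

theorem xd_inl (i : σ) (n : ℕ) : xd (Finsupp.single (Sum.inl i : σ ⊕ σ) n) = 0 := by
  simp [xd]

theorem xd_inr (i : σ) (n : ℕ) : xd (Finsupp.single (Sum.inr i : σ ⊕ σ) n) = n := by
  classical
  simp [xd, Finsupp.single_apply]

theorem xd_zero : xd (0 : σ ⊕ σ →₀ ℕ) = 0 := by simp [xd]

/-- Symbols of order less than `k`. -/
def Fil (σ : Type) [Fintype σ] (k : ℕ) : Submodule ℂ (MvPolynomial (σ ⊕ σ) ℂ) where
  carrier := {p | ∀ m, p.coeff m ≠ 0 → xd m < k}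
  add_mem' := by
    intro p q hp hq m hm
    by_cases h : p.coeff m = 0
    · rw [coeff_add, h, zero_add] at hm
      exact hq m hm
    · exact hp m h
  zero_mem' := by
    intro m hm
    simp at hm
  smul_mem' := by
    intro c p hp m hm
    rw [coeff_smul, smul_eq_mul] at hm
    exact hp m (right_ne_zero_of_mul hm)

theorem mem_Fil {k : ℕ} {p : MvPolynomial (σ ⊕ σ) ℂ} :
    p ∈ Fil σ k ↔ ∀ m, p.coeff m ≠ 0 → xd m < k := Iff.rfl

theorem Fil_mono {k l : ℕ} (h : k ≤ l) : Fil σ k ≤ Fil σ l :=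
  fun _ hp m hm => (hp m hm).trans_le h

theorem Fil_zero {p : MvPolynomial (σ ⊕ σ) ℂ} (h : p ∈ Fil σ 0) : p = 0 := by
  ext m
  rw [coeff_zero]
  by_contra hm
  exact Nat.not_lt_zero _ (h m hm)

theorem Fil_monomial {k : ℕ} {m : σ ⊕ σ →₀ ℕ} (c : ℂ) (h : xd m < k) :
    monomial m c ∈ Fil σ k := by
  classical
  intro n hn
  rw [coeff_monomial] at hn
  split_ifs at hn with h1
  · rw [← h1]; exact h
  · exact absurd rfl hn

theorem Fil_ind {k : ℕ} (P : MvPolynomial (σ ⊕ σ) ℂ → Prop) (h0 : P 0)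
    (hadd : ∀ p q, P p → P q → P (p + q)) (hm : ∀ m c, xd m < k → P (monomial m c))
    {p : MvPolynomial (σ ⊕ σ) ℂ} (hp : p ∈ Fil σ k) : P p := by
  rw [p.as_sum]
  refine Finset.sum_induction _ P (fun a b => hadd a b) h0 fun m hms => ?_
  exact hm _ _ (hp m (mem_support_iff.1 hms))

theorem Fil_mul {k l : ℕ} {p q : MvPolynomial (σ ⊕ σ) ℂ} (hp : p ∈ Fil σ k)
    (hq : q ∈ Fil σ (l + 1)) : p * q ∈ Fil σ (k + l) := by
  classical
  intro m hm
  rw [coeff_mul] at hm
  obtain ⟨x, hx, hx'⟩ := Finset.exists_ne_zero_of_sum_ne_zero hm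
  have h1 := hp _ (left_ne_zero_of_mul hx')
  have h2 := hq _ (right_ne_zero_of_mul hx')
  rw [← Finset.HasAntidiagonal.mem_antidiagonal.1 hx, xd_add]
  omega

theorem Fil_mul' {k l : ℕ} {p q : MvPolynomial (σ ⊕ σ) ℂ} (hp : p ∈ Fil σ (k + 1))
    (hq : q ∈ Fil σ l) : p * q ∈ Fil σ (k + l) := by
  rw [mul_comm, add_comm k l]
  exact Fil_mul hq hp

theorem Fil_x (g : MvPolynomial σ ℂ) : rename Sum.inl g ∈ Fil σ 1 := by
  induction g using MvPolynomial.induction_on' with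
  | add p q hp hq => rw [map_add]; exact (Fil σ 1).add_mem hp hq
  | monomial m c =>
    rw [rename_monomial]
    refine Fil_monomial c ?_
    have : xd (Finsupp.mapDomain Sum.inl m : σ ⊕ σ →₀ ℕ) = 0 := by
      unfold xd
      refine Finset.sum_eq_zero fun i _ => ?_
      rw [Finsupp.mapDomain_of_notMem_range]
      simp
    omega

theorem xd_map_inr (m : σ →₀ ℕ) :
    xd (Finsupp.mapDomain Sum.inr m : σ ⊕ σ →₀ ℕ) = ∑ i, m i := by
  unfold xd
  refine Finset.sum_congr rfl fun i _ => ?_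
  rw [Finsupp.mapDomain_apply Sum.inr_injective]

theorem Fil_X_inl (i : σ) : (X (Sum.inl i) : MvPolynomial (σ ⊕ σ) ℂ) ∈ Fil σ 1 :=
  Fil_monomial _ (by rw [xd_inl]; omega)

theorem Fil_X_inr (i : σ) : (X (Sum.inr i) : MvPolynomial (σ ⊕ σ) ℂ) ∈ Fil σ 2 :=
  Fil_monomial _ (by rw [xd_inr]; omega)

theorem Fil_pderiv {k : ℕ} (i : σ) {p : MvPolynomial (σ ⊕ σ) ℂ} (hp : p ∈ Fil σ k) :
    pderiv (Sum.inr i) p ∈ Fil σ (k - 1) := by
  intro m hm
  rw [coeff_pderiv] at hm
  have h1 := hp _ (left_ne_zero_of_mul hm)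
  rw [xd_add, xd_inr] at h1
  omega

theorem Fil_pderiv' {k : ℕ} (i : σ) {p : MvPolynomial (σ ⊕ σ) ℂ} (hp : p ∈ Fil σ k) :
    pderiv (Sum.inl i) p ∈ Fil σ k := by
  intro m hm
  rw [coeff_pderiv] at hm
  have h1 := hp _ (left_ne_zero_of_mul hm)
  rw [xd_add, xd_inl] at h1
  omega

theorem WMod.x_mul_nf' (W : WMod σ L) (g : MvPolynomial σ ℂ) (p : MvPolynomial (σ ⊕ σ) ℂ) :
    W.x g * W.nf p = W.nf (rename Sum.inl g * p) := by
  induction p using sum_ind with
  | h0 f h =>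
    rw [W.nf_mul, ← mul_assoc, ← mul_assoc, ← map_mul, ← map_mul, W.nf_mul]
  | hadd p q hp hq => simp only [map_add, mul_add, hp, hq]

theorem WMod.nf_mul_d' (W : WMod σ L) (g : MvPolynomial σ ℂ) (p : MvPolynomial (σ ⊕ σ) ℂ) :
    W.nf p * W.d g = W.nf (rename Sum.inr g * p) := by
  induction p using sum_ind with
  | h0 f h =>
    rw [W.nf_mul, mul_assoc, ← map_mul, show rename Sum.inr g * (rename Sum.inl f *
      rename Sum.inr h : MvPolynomial (σ ⊕ σ) ℂ) = rename Sum.inl f * rename Sum.inr (h * g) by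
        rw [map_mul]; ring, W.nf_mul]
  | hadd p q hp hq => simp only [map_add, mul_add, add_mul, hp, hq]

/-- Composition with a function on the right. -/
theorem WMod.comp_x (W : WMod σ L) (g : MvPolynomial σ ℂ) {k : ℕ}
    {p : MvPolynomial (σ ⊕ σ) ℂ} (hp : p ∈ Fil σ k) :
    ∃ r ∈ Fil σ k, W.nf p * W.x g = W.nf r ∧ r - rename Sum.inl g * p ∈ Fil σ (k - 1) := by
  induction g using MvPolynomial.induction_on with
  | C a =>
    refine ⟨a • p, (Fil σ k).smul_mem _ hp, ?_, ?_⟩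
    · rw [W.x_C, map_smul, mul_smul_comm, mul_one]
    · rw [rename_C, ← MvPolynomial.smul_eq_C_mul, sub_self]
      exact Submodule.zero_mem _
  | add f g hf hg =>
    obtain ⟨r, hr, h1, h2⟩ := hf
    obtain ⟨s, hs, h3, h4⟩ := hg
    refine ⟨r + s, (Fil σ k).add_mem hr hs, ?_, ?_⟩
    · rw [map_add, mul_add, h1, h3, map_add]
    · have : r + s - rename Sum.inl (f + g) * p =
          (r - rename Sum.inl f * p) + (s - rename Sum.inl g * p) := by
        rw [map_add]; ring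
      rw [this]
      exact Submodule.add_mem _ h2 h4
  | mul_X f i hf =>
    obtain ⟨r, hr, h1, h2⟩ := hf
    refine ⟨X (Sum.inl i) * r + pderiv (Sum.inr i) r, ?_, ?_, ?_⟩
    · refine Submodule.add_mem _ ?_ (Fil_mono (Nat.sub_le _ _) (Fil_pderiv i hr))
      have := Fil_mul' (Fil_X_inl i) hr
      rwa [zero_add] at this
    · rw [map_mul, ← mul_assoc, h1, W.nf_mul_x]
    · have : X (Sum.inl i) * r + pderiv (Sum.inr i) r - rename Sum.inl (f * X i) * p =
          X (Sum.inl i) * (r - rename Sum.inl f * p) + pderiv (Sum.inr i) r := by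
        rw [map_mul, rename_X]; ring
      rw [this]
      refine Submodule.add_mem _ ?_ (Fil_pderiv i hr)
      have := Fil_mul' (Fil_X_inl i) h2
      rwa [zero_add] at this

theorem monomial_split (m : σ ⊕ σ →₀ ℕ) (c : ℂ) :
    (monomial m c : MvPolynomial (σ ⊕ σ) ℂ) =
      rename Sum.inl (monomial (Finsupp.sumFinsuppEquivProdFinsupp m).1 c) *
        rename Sum.inr (monomial (Finsupp.sumFinsuppEquivProdFinsupp m).2 1) := by
  rw [rename_monomial, rename_monomial, monomial_mul, mul_one, sum_split,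
    Prod.mk.eta, Equiv.symm_apply_apply]

theorem Fil_part (m : σ ⊕ σ →₀ ℕ) (c : ℂ) {k : ℕ} (h : xd m < k) :
    (rename Sum.inr (monomial (Finsupp.sumFinsuppEquivProdFinsupp m).2 c) :
      MvPolynomial (σ ⊕ σ) ℂ) ∈ Fil σ k := by
  rw [rename_monomial]
  refine Fil_monomial c ?_
  rw [xd_map_inr]
  exact h

/-- Composition of operators: the symbol of the product is the product of the symbols. -/
theorem WMod.comp (W : WMod σ L) {k l : ℕ} {p q : MvPolynomial (σ ⊕ σ) ℂ}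
    (hp : p ∈ Fil σ (k + 1)) (hq : q ∈ Fil σ (l + 1)) :
    ∃ r ∈ Fil σ (k + l + 1), W.nf p * W.nf q = W.nf r ∧ r - p * q ∈ Fil σ (k + l) := by
  refine Fil_ind (fun q => ∃ r ∈ Fil σ (k + l + 1), W.nf p * W.nf q = W.nf r ∧
    r - p * q ∈ Fil σ (k + l)) ⟨0, Submodule.zero_mem _, by simp, by simp⟩ ?_ ?_ hq
  · rintro a b ⟨r, hr, h1, h2⟩ ⟨s, hs, h3, h4⟩
    refine ⟨r + s, Submodule.add_mem _ hr hs, ?_, ?_⟩
    · rw [map_add, mul_add, h1, h3, map_add]
    · rw [mul_add, add_sub_add_comm]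
      exact Submodule.add_mem _ h2 h4
  · intro m c hm
    obtain ⟨r, hr, h1, h2⟩ := W.comp_x (monomial (Finsupp.sumFinsuppEquivProdFinsupp m).1 c) hp
    refine ⟨rename Sum.inr (monomial (Finsupp.sumFinsuppEquivProdFinsupp m).2 1) * r, ?_, ?_, ?_⟩
    · have := Fil_mul' (Fil_part m 1 hm) hr
      rwa [show l + (k + 1) = k + l + 1 by ring] at this
    · rw [monomial_split m c, W.nf_mul, ← mul_assoc, h1, W.nf_mul_d']
    · rw [monomial_split m c]
      have : rename Sum.inr (monomial (Finsupp.sumFinsuppEquivProdFinsupp m).2 1) * r -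
          p * (rename Sum.inl (monomial (Finsupp.sumFinsuppEquivProdFinsupp m).1 c) *
            rename Sum.inr (monomial (Finsupp.sumFinsuppEquivProdFinsupp m).2 1)) =
          rename Sum.inr (monomial (Finsupp.sumFinsuppEquivProdFinsupp m).2 1) * (r -
            rename Sum.inl (monomial (Finsupp.sumFinsuppEquivProdFinsupp m).1 c) * p) := by ring
      rw [this]
      have h3 := Fil_mul' (Fil_part m 1 hm) h2
      rwa [show l + (k + 1 - 1) = k + l by omega] at h3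

/-- Denominators can be moved to the left. -/
theorem WMod.denom (W : WMod σ L) (f : MvPolynomial σ ℂ) (k : ℕ) :
    ∀ (M : ℕ) (p : MvPolynomial (σ ⊕ σ) ℂ), p ∈ Fil σ k →
      ∃ r ∈ Fil σ k, W.x (f ^ (M + k)) * W.nf p = W.nf r * W.x (f ^ M) ∧
        r - rename Sum.inl (f ^ k) * p ∈ Fil σ (k - 1) := by
  induction k with
  | zero =>
    intro M p hp
    refine ⟨0, Submodule.zero_mem _, ?_, ?_⟩
    · rw [Fil_zero hp]; simp
    · rw [Fil_zero hp]; simp
  | succ k ih =>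
    intro M
    induction M with
    | zero =>
      intro p hp
      refine ⟨rename Sum.inl (f ^ (k + 1)) * p, ?_, ?_, ?_⟩
      · have := Fil_mul' (Fil_x (f ^ (k + 1))) hp
        rwa [zero_add] at this
      · rw [pow_zero, map_one, mul_one, zero_add, W.x_mul_nf']
      · rw [sub_self]; exact Submodule.zero_mem _
    | succ M ihM =>
      intro p hp
      obtain ⟨r, hr, h1, h2⟩ := W.comp_x f hp
      rw [Nat.add_sub_cancel] at h2
      obtain ⟨s, hs, h3, h4⟩ := ihM p hp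
      obtain ⟨t, ht, h5, h6⟩ := ih (M + 1) _ h2
      refine ⟨s - t, Submodule.sub_mem _ hs (Fil_mono (Nat.le_succ k) ht), ?_, ?_⟩
      · have h7 : W.x f * W.nf p = W.nf p * W.x f - W.nf (r - rename Sum.inl f * p) := by
          rw [map_sub, h1, W.x_mul_nf']; abel
        rw [show M + 1 + (k + 1) = (M + (k + 1)) + 1 by ring, pow_succ, map_mul, mul_assoc, h7,
          mul_sub, ← mul_assoc, h3, show M + (k + 1) = M + 1 + k by ring, h5, map_sub, sub_mul,
          mul_assoc, ← map_mul, ← pow_succ]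
      · rw [Nat.add_sub_cancel] at h4 ⊢
        rw [sub_right_comm]
        exact Submodule.sub_mem _ h4 ht

/-- Evaluation of a symbol on the line `t ↦ (p, tξ)`. -/
def evt (p ξ : σ → ℂ) : MvPolynomial (σ ⊕ σ) ℂ →ₐ[ℂ] Polynomial ℂ :=
  aeval (Sum.elim (fun i => Polynomial.C (p i)) fun i => Polynomial.C (ξ i) * Polynomial.X)

/-- The value at `(p, ξ)` of the symbol of order `k`. -/
def symAt (k : ℕ) (p ξ : σ → ℂ) : MvPolynomial (σ ⊕ σ) ℂ →ₗ[ℂ] ℂ :=
  (Polynomial.lcoeff ℂ k).comp (evt p ξ).toLinearMap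

theorem symAt_apply (k : ℕ) (p ξ : σ → ℂ) (P : MvPolynomial (σ ⊕ σ) ℂ) :
    symAt k p ξ P = (evt p ξ P).coeff k := rfl

theorem evt_monomial (p ξ : σ → ℂ) (m : σ ⊕ σ →₀ ℕ) (c : ℂ) :
    evt p ξ (monomial m c) = Polynomial.C (c * ((∏ i, p i ^ m (Sum.inl i)) *
      ∏ i, ξ i ^ m (Sum.inr i))) * Polynomial.X ^ xd m := by
  rw [evt, aeval_monomial, Finsupp.prod_fintype _ _ (fun i => pow_zero _),
    Fintype.prod_sum_type]
  simp only [Sum.elim_inl, Sum.elim_inr, mul_pow, Finset.prod_mul_distrib, map_mul, map_prod,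
    map_pow, xd, Finset.prod_pow_eq_pow_sum]
  simp only [Polynomial.algebraMap_apply, Algebra.algebraMap_self, RingHom.id_apply]
  ring

theorem evt_coeff {k : ℕ} {P : MvPolynomial (σ ⊕ σ) ℂ} (hP : P ∈ Fil σ k) (p ξ : σ → ℂ) {n : ℕ}
    (hn : k ≤ n) : (evt p ξ P).coeff n = 0 := by
  refine Fil_ind (fun P => (evt p ξ P).coeff n = 0) (by simp) ?_ ?_ hP
  · intro a b ha hb
    rw [map_add, Polynomial.coeff_add, ha, hb, add_zero]
  · intro m c hm
    rw [evt_monomial, Polynomial.coeff_C_mul_X_pow, if_neg (by omega)]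

theorem symAt_lt {k : ℕ} {P : MvPolynomial (σ ⊕ σ) ℂ} (hP : P ∈ Fil σ k) (p ξ : σ → ℂ) :
    symAt k p ξ P = 0 := evt_coeff hP p ξ le_rfl

theorem symAt_mul {k l : ℕ} {P Q : MvPolynomial (σ ⊕ σ) ℂ} (hP : P ∈ Fil σ (k + 1))
    (hQ : Q ∈ Fil σ (l + 1)) (p ξ : σ → ℂ) :
    symAt (k + l) p ξ (P * Q) = symAt k p ξ P * symAt l p ξ Q := by
  rw [symAt_apply, map_mul]
  refine Polynomial.coeff_mul_add_eq_of_natDegree_le ?_ ?_
  · exact Polynomial.natDegree_le_iff_coeff_eq_zero.2 fun n hn => evt_coeff hP p ξ hn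
  · exact Polynomial.natDegree_le_iff_coeff_eq_zero.2 fun n hn => evt_coeff hQ p ξ hn

theorem evt_inl (g : MvPolynomial σ ℂ) (p ξ : σ → ℂ) :
    evt p ξ (rename Sum.inl g) = Polynomial.C (eval p g) := by
  induction g using MvPolynomial.induction_on with
  | C a => rw [rename_C, eval_C, ← MvPolynomial.algebraMap_eq, AlgHom.commutes]; rfl
  | add f g hf hg => rw [map_add, map_add, hf, hg, map_add, map_add]
  | mul_X f i hf => rw [map_mul, map_mul, hf, rename_X, evt, aeval_X, Sum.elim_inl, map_mul,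
      eval_X, map_mul]

theorem symAt_inl (g : MvPolynomial σ ℂ) (p ξ : σ → ℂ) :
    symAt 0 p ξ (rename Sum.inl g) = eval p g := by
  rw [symAt_apply, evt_inl, Polynomial.coeff_C_zero]

theorem symAt_inl_mul (g : MvPolynomial σ ℂ) (k : ℕ) (P : MvPolynomial (σ ⊕ σ) ℂ) (p ξ : σ → ℂ) :
    symAt k p ξ (rename Sum.inl g * P) = eval p g * symAt k p ξ P := by
  rw [symAt_apply, map_mul, evt_inl, Polynomial.coeff_C_mul]
  rfl

theorem symAt_X_inr (i : σ) (p ξ : σ → ℂ) :
    symAt 1 p ξ (X (Sum.inr i)) = ξ i := by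
  rw [symAt_apply, evt, aeval_X, Sum.elim_inr, Polynomial.coeff_C_mul, Polynomial.coeff_X_one,
    mul_one]

end Pool.DM
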