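import Pool.Agent.Work.MP_c20ce7_dm70.S1

set_option autoImplicit false
set_option linter.unusedSectionVars false

/-!
# Operators with denominators: order and symbol
-/

open MvPolynomial

noncomputable section

namespace Pool.DM

variable {σ : Type} [Fintype σ] [DecidableEq σ] {L : Type} [AddCommGroup L] [Module ℂ L]

/-- `T` is an operator of order less than `k`, with powers of `f` as denominators. -/
def WMod.Ord (W : WMod σ L) (f : MvPolynomial σ ℂ) (k : ℕ) (T : Module.End ℂ L) : Prop :=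
  ∃ N : ℕ, ∃ P ∈ Fil σ k, W.x (f ^ N) * T = W.nf P

/-- `T` is an operator of order at most `k`, with powers of `f` as denominators, and the value at
`(p, ξ)` of its symbol of order `k` is `c`. -/
def WMod.Sym (W : WMod σ L) (f : MvPolynomial σ ℂ) (p ξ : σ → ℂ) (k : ℕ) (T : Module.End ℂ L)
    (c : ℂ) : Prop :=
  ∃ N : ℕ, ∃ P ∈ Fil σ (k + 1), W.x (f ^ N) * T = W.nf P ∧ symAt k p ξ P = eval p f ^ N * c

variable {W : WMod σ L} {f : MvPolynomial σ ℂ} {p ξ : σ → ℂ}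

theorem WMod.nf_zero' (W : WMod σ L) : W.nf 0 = 0 := map_zero _

theorem WMod.Ord.mono {k l : ℕ} {T : Module.End ℂ L} (h : W.Ord f k T) (hkl : k ≤ l) :
    W.Ord f l T := by
  obtain ⟨N, P, hP, h1⟩ := h
  exact ⟨N, P, Fil_mono hkl hP, h1⟩

theorem WMod.Ord.zero (k : ℕ) : W.Ord f k 0 := ⟨0, 0, Submodule.zero_mem _, by simp⟩

theorem WMod.Ord.scale {k : ℕ} {T : Module.End ℂ L} {N : ℕ} {P : MvPolynomial (σ ⊕ σ) ℂ}
    (hP : P ∈ Fil σ k) (h : W.x (f ^ N) * T = W.nf P) (M : ℕ) :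
    rename Sum.inl (f ^ M) * P ∈ Fil σ k ∧
      W.x (f ^ (M + N)) * T = W.nf (rename Sum.inl (f ^ M) * P) := by
  constructor
  · have := Fil_mul' (Fil_x (f ^ M)) hP
    rwa [zero_add] at this
  · rw [← W.x_mul_nf', ← h, pow_add, map_mul, mul_assoc]

theorem WMod.Ord.add {k : ℕ} {T S : Module.End ℂ L} (hT : W.Ord f k T) (hS : W.Ord f k S) :
    W.Ord f k (T + S) := by
  obtain ⟨N, P, hP, h1⟩ := hT
  obtain ⟨M, Q, hQ, h2⟩ := hS
  have a := WMod.Ord.scale hP h1 M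
  have b := WMod.Ord.scale hQ h2 N
  refine ⟨M + N, _, Submodule.add_mem _ a.1 b.1, ?_⟩
  rw [mul_add, a.2, map_add, add_comm M N, b.2]

theorem WMod.Ord.smul {k : ℕ} {T : Module.End ℂ L} (hT : W.Ord f k T) (c : ℂ) :
    W.Ord f k (c • T) := by
  obtain ⟨N, P, hP, h1⟩ := hT
  exact ⟨N, c • P, Submodule.smul_mem _ _ hP, by rw [mul_smul_comm, h1, map_smul]⟩

theorem WMod.Ord.neg {k : ℕ} {T : Module.End ℂ L} (hT : W.Ord f k T) : W.Ord f k (-T) := by
  have := hT.smul (-1)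
  rwa [neg_one_smul] at this

theorem WMod.Ord.sub {k : ℕ} {T S : Module.End ℂ L} (hT : W.Ord f k T) (hS : W.Ord f k S) :
    W.Ord f k (T - S) := by
  rw [sub_eq_add_neg]
  exact hT.add hS.neg

/-- The product with all data. -/
theorem WMod.mul_data {k l N M : ℕ} {T S : Module.End ℂ L} {P Q : MvPolynomial (σ ⊕ σ) ℂ}
    (hP : P ∈ Fil σ (k + 1)) (h1 : W.x (f ^ N) * T = W.nf P)
    (hQ : Q ∈ Fil σ (l + 1)) (h2 : W.x (f ^ M) * S = W.nf Q) :
    ∃ R ∈ Fil σ (k + l + 1), W.x (f ^ (N + M + (k + 1))) * (T * S) = W.nf R ∧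
      R - rename Sum.inl (f ^ (k + 1)) * (P * Q) ∈ Fil σ (k + l) := by
  obtain ⟨P', hP', h3, h4⟩ := W.denom f (k + 1) M P hP
  obtain ⟨R, hR, h5, h6⟩ := W.comp hP' hQ
  refine ⟨R, hR, ?_, ?_⟩
  · rw [show N + M + (k + 1) = (M + (k + 1)) + N by ring, pow_add, map_mul, mul_assoc,
      ← mul_assoc (W.x (f ^ N)), h1, ← mul_assoc, h3, mul_assoc, h2, h5]
  · rw [Nat.add_sub_cancel] at h4
    have h7 : R - rename Sum.inl (f ^ (k + 1)) * (P * Q) =
        (R - P' * Q) + (P' - rename Sum.inl (f ^ (k + 1)) * P) * Q := by ring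
    rw [h7]
    exact Submodule.add_mem _ h6 (Fil_mul h4 hQ)

theorem WMod.Ord.mul {k l : ℕ} {T S : Module.End ℂ L} (hT : W.Ord f (k + 1) T)
    (hS : W.Ord f (l + 1) S) : W.Ord f (k + l + 1) (T * S) := by
  obtain ⟨N, P, hP, h1⟩ := hT
  obtain ⟨M, Q, hQ, h2⟩ := hS
  obtain ⟨R, hR, h3, -⟩ := WMod.mul_data hP h1 hQ h2
  exact ⟨_, R, hR, h3⟩

/-- Operators of order less than `0` vanish up to torsion. -/
theorem WMod.Ord.mulZ {k : ℕ} {T S : Module.End ℂ L} (hT : W.Ord f k T)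
    (hS : W.Ord f 0 S) : W.Ord f 0 (T * S) := by
  obtain ⟨N, P, hP, h1⟩ := hT
  obtain ⟨M, Q, hQ, h2⟩ := hS
  obtain ⟨P', hP', h3, -⟩ := W.denom f k M P hP
  refine ⟨(M + k) + N, 0, Submodule.zero_mem _, ?_⟩
  rw [pow_add, map_mul, mul_assoc, ← mul_assoc (W.x (f ^ N)), h1, ← mul_assoc, h3, mul_assoc, h2,
    Fil_zero hQ, map_zero, mul_zero]

theorem WMod.Ord.zMul {T S : Module.End ℂ L} (hT : W.Ord f 0 T) : W.Ord f 0 (T * S) := by
  obtain ⟨N, P, hP, h1⟩ := hT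
  refine ⟨N, 0, Submodule.zero_mem _, ?_⟩
  rw [← mul_assoc, h1, Fil_zero hP, map_zero, zero_mul]

theorem WMod.Ord.mul' {k l : ℕ} {T S : Module.End ℂ L} (hT : W.Ord f k T)
    (hS : W.Ord f (l + 1) S) : W.Ord f (k + l) (T * S) := by
  rcases k with _ | k
  · exact hT.zMul.mono (Nat.zero_le _)
  · have := hT.mul hS
    rwa [show k + l + 1 = k + 1 + l by ring] at this

/-- Commutators have smaller order. -/
theorem WMod.Ord.comm {k l : ℕ} {T S : Module.End ℂ L} (hT : W.Ord f (k + 1) T)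
    (hS : W.Ord f l S) : W.Ord f (k + l - 1) (T * S - S * T) := by
  rcases l with _ | l
  · exact ((hT.mulZ hS).sub hS.zMul).mono (Nat.zero_le _)
  obtain ⟨N, P, hP, h1⟩ := hT
  obtain ⟨M, Q, hQ, h2⟩ := hS
  obtain ⟨R, hR, h3, h4⟩ := WMod.mul_data hP h1 hQ h2
  obtain ⟨R', hR', h5, h6⟩ := WMod.mul_data hQ h2 hP h1
  have a := WMod.Ord.scale hR h3 l
  have b := WMod.Ord.scale hR' h5 k
  refine ⟨l + (N + M + (k + 1)), rename Sum.inl (f ^ l) * R - rename Sum.inl (f ^ k) * R', ?_, ?_⟩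
  · have h7 : rename Sum.inl (f ^ l) * R - rename Sum.inl (f ^ k) * R' =
        rename Sum.inl (f ^ l) * (R - rename Sum.inl (f ^ (k + 1)) * (P * Q)) -
        rename Sum.inl (f ^ k) * (R' - rename Sum.inl (f ^ (l + 1)) * (Q * P)) := by
      simp only [map_pow]
      ring
    rw [h7, show k + (l + 1) - 1 = k + l by omega]
    refine Submodule.sub_mem _ ?_ ?_
    · have := Fil_mul' (Fil_x (f ^ l)) h4
      rwa [zero_add] at this
    · have := Fil_mul' (Fil_x (f ^ k)) h6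
      rwa [zero_add, add_comm l k] at this
  · rw [mul_sub, a.2, map_sub, show l + (N + M + (k + 1)) = k + (M + N + (l + 1)) by ring, b.2]

theorem WMod.Sym.ord {k : ℕ} {T : Module.End ℂ L} {c : ℂ} (h : W.Sym f p ξ k T c) :
    W.Ord f (k + 1) T := by
  obtain ⟨N, P, hP, h1, -⟩ := h
  exact ⟨N, P, hP, h1⟩

theorem WMod.Ord.sym {k : ℕ} {T : Module.End ℂ L} (h : W.Ord f k T) : W.Sym f p ξ k T 0 := by
  obtain ⟨N, P, hP, h1⟩ := h
  exact ⟨N, P, Fil_mono (Nat.le_succ k) hP, h1, by rw [symAt_lt hP, mul_zero]⟩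

theorem WMod.Sym.add {k : ℕ} {T S : Module.End ℂ L} {c d : ℂ} (hT : W.Sym f p ξ k T c)
    (hS : W.Sym f p ξ k S d) : W.Sym f p ξ k (T + S) (c + d) := by
  obtain ⟨N, P, hP, h1, h3⟩ := hT
  obtain ⟨M, Q, hQ, h2, h4⟩ := hS
  have a := WMod.Ord.scale hP h1 M
  have b := WMod.Ord.scale hQ h2 N
  refine ⟨M + N, _, Submodule.add_mem _ a.1 b.1, ?_, ?_⟩
  · rw [mul_add, a.2, map_add, add_comm M N, b.2]
  · rw [map_add, symAt_inl_mul, symAt_inl_mul, h3, h4, map_pow, map_pow]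
    ring

theorem WMod.Sym.smul {k : ℕ} {T : Module.End ℂ L} {c : ℂ} (hT : W.Sym f p ξ k T c) (a : ℂ) :
    W.Sym f p ξ k (a • T) (a * c) := by
  obtain ⟨N, P, hP, h1, h3⟩ := hT
  exact ⟨N, a • P, Submodule.smul_mem _ _ hP, by rw [mul_smul_comm, h1, map_smul],
    by rw [map_smul, h3, smul_eq_mul]; ring⟩

theorem WMod.Sym.mul {k l : ℕ} {T S : Module.End ℂ L} {c d : ℂ} (hT : W.Sym f p ξ k T c)
    (hS : W.Sym f p ξ l S d) : W.Sym f p ξ (k + l) (T * S) (c * d) := by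
  obtain ⟨N, P, hP, h1, h3⟩ := hT
  obtain ⟨M, Q, hQ, h2, h4⟩ := hS
  obtain ⟨R, hR, h5, h6⟩ := WMod.mul_data hP h1 hQ h2
  refine ⟨_, R, hR, h5, ?_⟩
  have h7 : symAt (k + l) p ξ R = symAt (k + l) p ξ (rename Sum.inl (f ^ (k + 1)) * (P * Q)) := by
    rw [← sub_eq_zero, ← map_sub]
    exact symAt_lt h6 p ξ
  rw [h7, symAt_inl_mul, symAt_mul hP hQ, h3, h4, map_pow]
  ring

theorem WMod.Sym.pow {k : ℕ} {T : Module.End ℂ L} {c : ℂ} (hT : W.Sym f p ξ k T c) (m : ℕ) :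
    W.Sym f p ξ (m * k) (T ^ m) (c ^ m) := by
  induction m with
  | zero =>
    rw [pow_zero, pow_zero, Nat.zero_mul]
    refine ⟨0, 1, ?_, ?_, ?_⟩
    · have := Fil_x (σ := σ) 1
      rwa [map_one] at this
    · rw [pow_zero, map_one, mul_one, W.nf_one]
    · have := symAt_inl (1 : MvPolynomial σ ℂ) p ξ
      rw [map_one (rename Sum.inl), map_one (eval p)] at this
      rw [this, pow_zero, mul_one]
  | succ m ih =>
    rw [pow_succ, pow_succ, Nat.succ_mul]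
    exact ih.mul hT

theorem WMod.Sym.x (W : WMod σ L) (f : MvPolynomial σ ℂ) (p ξ : σ → ℂ) (g : MvPolynomial σ ℂ) :
    W.Sym f p ξ 0 (W.x g) (eval p g) :=
  ⟨0, rename Sum.inl g, Fil_x g, by rw [pow_zero, map_one, one_mul, W.nf_x],
    by rw [symAt_inl, pow_zero, one_mul]⟩

theorem WMod.Sym.d (W : WMod σ L) (f : MvPolynomial σ ℂ) (p ξ : σ → ℂ) (i : σ) :
    W.Sym f p ξ 1 (W.d (X i)) (ξ i) :=
  ⟨0, X (Sum.inr i), Fil_X_inr i, by rw [pow_zero, map_one, one_mul, ← rename_X, W.nf_d],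
    by rw [symAt_X_inr, pow_zero, one_mul]⟩

theorem WMod.Sym.nf (W : WMod σ L) (f : MvPolynomial σ ℂ) (p ξ : σ → ℂ) {k : ℕ}
    {P : MvPolynomial (σ ⊕ σ) ℂ} (hP : P ∈ Fil σ (k + 1)) :
    W.Sym f p ξ k (W.nf P) (symAt k p ξ P) :=
  ⟨0, P, hP, by rw [pow_zero, map_one, one_mul], by rw [pow_zero, one_mul]⟩

/-- Division by powers of `f`. -/
theorem WMod.Sym.div {k : ℕ} {T S : Module.End ℂ L} {c : ℂ} (hp : eval p f ≠ 0) (n : ℕ)
    (h : W.x (f ^ n) * S = T) (hT : W.Sym f p ξ k T c) :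
    W.Sym f p ξ k S ((eval p f ^ n)⁻¹ * c) := by
  obtain ⟨N, P, hP, h1, h3⟩ := hT
  refine ⟨N + n, P, hP, ?_, ?_⟩
  · rw [pow_add, map_mul, mul_assoc, h, h1]
  · rw [h3, pow_add]
    field_simp

theorem WMod.Ord.div {k : ℕ} {T S : Module.End ℂ L} (n : ℕ) (h : W.x (f ^ n) * S = T)
    (hT : W.Ord f k T) : W.Ord f k S := by
  obtain ⟨N, P, hP, h1⟩ := hT
  exact ⟨N + n, P, hP, by rw [pow_add, map_mul, mul_assoc, h, h1]⟩

section Transport

variable {τ : Type} [Fintype τ] [DecidableEq τ]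

theorem WMod.Sym.of_x (W' : WMod τ L) (p' : τ → ℂ)
    (h : ∀ j, W.Sym f p ξ 0 (W'.x (X j)) (p' j)) (g : MvPolynomial τ ℂ) :
    W.Sym f p ξ 0 (W'.x g) (eval p' g) := by
  have h1 : W.Sym f p ξ 0 (1 : Module.End ℂ L) 1 := by
    have := WMod.Sym.x W f p ξ 1
    rwa [map_one, map_one] at this
  induction g using MvPolynomial.induction_on with
  | C a =>
    rw [W'.x_C, eval_C]
    have := h1.smul a
    rwa [mul_one] at this
  | add g g' hg hg' =>
    rw [map_add, map_add]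
    exact hg.add hg'
  | mul_X g i hg =>
    rw [map_mul, map_mul, eval_X]
    exact hg.mul (h i)

theorem WMod.Sym.of_d (W' : WMod τ L) (ξ' : τ → ℂ)
    (h : ∀ j, W.Sym f p ξ 1 (W'.d (X j)) (ξ' j)) (b : τ →₀ ℕ) :
    W.Sym f p ξ (∑ i, b i) (W'.d (monomial b 1)) (∏ i, ξ' i ^ b i) := by
  have h1 : W.Sym f p ξ 0 (1 : Module.End ℂ L) 1 := by
    have := WMod.Sym.x W f p ξ 1
    rwa [map_one, map_one] at this
  induction b using Finsupp.induction_linear with
  | zero =>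
    simp only [Finsupp.coe_zero, Pi.zero_apply, Finset.sum_const_zero, pow_zero,
      Finset.prod_const_one]
    rw [show (monomial (0 : τ →₀ ℕ) (1 : ℂ)) = 1 from rfl, map_one]
    exact h1
  | add a b ha hb =>
    have := ha.mul hb
    simp only [Finsupp.coe_add, Pi.add_apply, Finset.sum_add_distrib, pow_add,
      Finset.prod_mul_distrib]
    rw [← mul_one (1 : ℂ), ← monomial_mul, map_mul]
    exact this
  | single i n =>
    have := (h i).pow n
    rw [← map_pow, mul_one] at this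
    rw [X_pow_eq_monomial] at this
    have h2 : ∑ j, (Finsupp.single i n) j = n := by
      rw [Finset.sum_eq_single i]
      · simp
      · intro b _ hb
        exact Finsupp.single_eq_of_ne hb
      · intro h; exact absurd (Finset.mem_univ i) h
    have h3 : ∏ j, ξ' j ^ (Finsupp.single i n) j = ξ' i ^ n := by
      rw [Finset.prod_eq_single i]
      · simp
      · intro b _ hb
        rw [Finsupp.single_eq_of_ne hb, pow_zero]
      · intro h; exact absurd (Finset.mem_univ i) h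
    rw [h2, h3]
    exact this

/-- Symbols of the operators of a second module structure, whose generators are operators of
orders `0` and `1` of the first one. -/
theorem WMod.Sym.of_nf (W' : WMod τ L) (p' ξ' : τ → ℂ)
    (hx : ∀ j, W.Sym f p ξ 0 (W'.x (X j)) (p' j))
    (hd : ∀ j, W.Sym f p ξ 1 (W'.d (X j)) (ξ' j)) {k : ℕ} {P : MvPolynomial (τ ⊕ τ) ℂ}
    (hP : P ∈ Fil τ (k + 1)) : W.Sym f p ξ k (W'.nf P) (symAt k p' ξ' P) := by
  refine Fil_ind (fun P => W.Sym f p ξ k (W'.nf P) (symAt k p' ξ' P)) ?_ ?_ ?_ hP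
  · rw [map_zero, map_zero]
    exact (WMod.Ord.zero k).sym
  · intro a b ha hb
    rw [map_add, map_add]
    exact ha.add hb
  · intro m c hm
    have h1 := (WMod.Sym.of_x (W := W) (f := f) (p := p) (ξ := ξ) W' p' hx
      (monomial (Finsupp.sumFinsuppEquivProdFinsupp m).1 c)).mul
      (WMod.Sym.of_d (W := W) (f := f) (p := p) (ξ := ξ) W' ξ' hd
        (Finsupp.sumFinsuppEquivProdFinsupp m).2)
    rw [← W'.nf_mul, ← monomial_split, zero_add] at h1
    have h2 : ∑ i, (Finsupp.sumFinsuppEquivProdFinsupp m).2 i = xd m := rfl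
    rw [h2] at h1
    rw [symAt_apply, evt_monomial, Polynomial.coeff_C_mul_X_pow]
    split_ifs with h3
    · rw [h3]
      convert h1 using 1
      rw [eval_monomial, Finsupp.prod_fintype _ _ (fun i => pow_zero _)]
      simp only [Finsupp.fst_sumFinsuppEquivProdFinsupp, Finsupp.snd_sumFinsuppEquivProdFinsupp]
      ring
    · exact (h1.ord.mono (by omega)).sym

end Transport

end Pool.DM
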