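import Pool.Agent.Work.MP_c20ce7_dm70.S2
import Pool.Agent.Work.MP_c20ce7_dm90.T6
import Pool.Agent.Work.MP_c20ce7_dm.Defs

set_option autoImplicit false
set_option linter.unusedSectionVars false

/-!
# The characteristic variety: test on one vector, localisation, change of coordinates
-/

open MvPolynomial

noncomputable section

namespace Pool.DM

variable {σ : Type} [Fintype σ] [DecidableEq σ] {L : Type} [AddCommGroup L] [Module ℂ L]

theorem weight_wt (m : σ ⊕ σ →₀ ℕ) : Finsupp.weight (wt σ) m = xd m := by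
  rw [Finsupp.weight_apply, Finsupp.sum_fintype _ _ (fun i => by simp), Fintype.sum_sum_type]
  simp [wt, xd]

theorem wtd_le_iff (P : MvPolynomial (σ ⊕ σ) ℂ) (m : ℕ) :
    weightedTotalDegree (wt σ) P ≤ m ↔ P ∈ Fil σ (m + 1) := by
  rw [weightedTotalDegree, Finset.sup_le_iff, mem_Fil]
  constructor
  · intro h n hn
    have := h n (mem_support_iff.2 hn)
    rw [weight_wt] at this
    omega
  · intro h n hn
    have := h n (mem_support_iff.1 hn)
    rw [weight_wt]
    omega

theorem whc_monomial (m : ℕ) (d : σ ⊕ σ →₀ ℕ) (c : ℂ) :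
    weightedHomogeneousComponent (wt σ) m (monomial d c) =
      if xd d = m then monomial d c else 0 := by
  classical
  ext n
  rw [coeff_weightedHomogeneousComponent, weight_wt]
  by_cases h : d = n
  · subst h
    split_ifs <;> simp
  · split_ifs <;> simp [coeff_monomial, h]

theorem eval_whc (m : ℕ) (x ξ : σ → ℂ) (P : MvPolynomial (σ ⊕ σ) ℂ) :
    eval (Sum.elim x ξ) (weightedHomogeneousComponent (wt σ) m P) = symAt m x ξ P := by
  induction P using MvPolynomial.induction_on' with
  | add p q hp hq => rw [map_add, map_add, hp, hq, map_add]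
  | monomial d c =>
    rw [whc_monomial, symAt_apply, evt_monomial, Polynomial.coeff_C_mul_X_pow]
    by_cases h : xd d = m
    · rw [if_pos h, if_pos h.symm, eval_monomial, Finsupp.prod_fintype _ _ (fun i => pow_zero _),
        Fintype.prod_sum_type]
      rfl
    · rw [if_neg h, if_neg (fun h' => h h'.symm), map_zero]

theorem WMod.inCh_iff (W : WMod σ L) (x ξ : σ → ℂ) :
    W.InCh x ξ ↔ ∀ u : L, u ≠ 0 → ∀ (k : ℕ) (P : MvPolynomial (σ ⊕ σ) ℂ), P ∈ Fil σ (k + 1) →
      W.nf P u = 0 → symAt k x ξ P = 0 := by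
  unfold WMod.InCh
  simp only [wtd_le_iff, eval_whc]

variable {W : WMod σ L} {f : MvPolynomial σ ℂ} {p ξ : σ → ℂ}

theorem Sym_zero_of {k : ℕ} {T : Module.End ℂ L} {c : ℂ} {u : L} (hp : eval p f ≠ 0)
    (H : ∀ (k : ℕ) (P : MvPolynomial (σ ⊕ σ) ℂ), P ∈ Fil σ (k + 1) → W.nf P u = 0 →
      symAt k p ξ P = 0) (hT : W.Sym f p ξ k T c) (hu : T u = 0) : c = 0 := by
  obtain ⟨N, P, hP, h1, h2⟩ := hT
  have h3 : W.nf P u = 0 := by rw [← h1, Module.End.mul_apply, hu, map_zero]
  rw [H k P hP h3] at h2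
  rcases mul_eq_zero.1 h2.symm with h4 | h4
  · exact absurd h4 (pow_ne_zero _ hp)
  · exact h4

/-- The characteristic variety and operators with denominators. -/
theorem WMod.InCh.sym (h : W.InCh p ξ) (hp : eval p f ≠ 0) {u : L} (hu : u ≠ 0) {k : ℕ}
    {T : Module.End ℂ L} {c : ℂ} (hT : W.Sym f p ξ k T c) (hTu : T u = 0) : c = 0 :=
  Sym_zero_of hp ((W.inCh_iff p ξ).1 h u hu) hT hTu

theorem WMod.LSimple.exists_op (h : W.LSimple f) {v : L} (hv : v ≠ 0) (w : L) :
    ∃ (k : ℕ) (T : Module.End ℂ L), W.Ord f (k + 1) T ∧ T v = w := by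
  have one : W.Ord f 1 (1 : Module.End ℂ L) := by
    have := (WMod.Sym.x W f 0 0 1).ord
    rwa [map_one] at this
  let N : Submodule ℂ L :=
    { carrier := {w | ∃ (k : ℕ) (T : Module.End ℂ L), W.Ord f (k + 1) T ∧ T v = w}
      zero_mem' := ⟨0, 0, WMod.Ord.zero _, by simp⟩
      add_mem' := by
        rintro a b ⟨k, T, hT, rfl⟩ ⟨l, S, hS, rfl⟩
        exact ⟨k + l, T + S, (hT.mono (by omega)).add (hS.mono (by omega)), rfl⟩
      smul_mem' := by
        rintro c a ⟨k, T, hT, rfl⟩
        exact ⟨k, c • T, hT.smul c, rfl⟩ }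
  have hN : N = ⊤ := by
    refine h.top N ?_ ?_ ?_
    · rintro a ⟨k, T, hT, rfl⟩
      refine ⟨fun i => ?_, fun i => ?_⟩
      · have := ((WMod.Sym.x W f 0 0 (X i)).ord).mul hT
        exact ⟨_, _, this, rfl⟩
      · have := ((WMod.Sym.d W f 0 0 i).ord).mul hT
        exact ⟨_, _, this, rfl⟩
    · intro h0
      have h1 : v ∈ N := ⟨0, 1, one, rfl⟩
      rw [h0, Submodule.mem_bot] at h1
      exact hv h1
    · rintro a ⟨k, T, hT, hTv⟩
      let e := LinearEquiv.ofBijective (W.x f) h.bij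
      refine ⟨k, (e.symm : L →ₗ[ℂ] L) * T, ?_, ?_⟩
      · refine WMod.Ord.div 1 ?_ hT
        ext u
        rw [pow_one]
        exact e.apply_symm_apply (T u)
      · rw [Module.End.mul_apply, hTv]
        exact e.symm_apply_apply a
  have h1 : w ∈ N := by rw [hN]; trivial
  exact h1

/-- Iterated commutators. -/
def adPow (T A : Module.End ℂ L) : ℕ → Module.End ℂ L
  | 0 => A
  | j + 1 => T * adPow T A j - adPow T A j * T

theorem adPow_apply (T A : Module.End ℂ L) {u : L} (hu : T u = 0) (j : ℕ) :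
    (T ^ j) (A u) = adPow T A j u := by
  induction j with
  | zero => rfl
  | succ j ih =>
    rw [pow_succ', Module.End.mul_apply, ih, adPow, LinearMap.sub_apply, Module.End.mul_apply,
      Module.End.mul_apply, hu, map_zero, sub_zero]

theorem adPow_ord {k a : ℕ} {T A : Module.End ℂ L} (hT : W.Ord f (k + 1) T)
    (hA : W.Ord f (a + 1) A) (j : ℕ) : W.Ord f (a + 1 + j * k - j) (adPow T A j) := by
  induction j with
  | zero => simpa [adPow] using hA
  | succ j ih =>
    refine (hT.comm ih).mono ?_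
    rcases k with _ | k
    · simp only [mul_zero]; omega
    · have : j ≤ j * (k + 1) := Nat.le_mul_of_pos_right _ (Nat.succ_pos k)
      have h2 : (j + 1) * (k + 1) = j * (k + 1) + (k + 1) := by ring
      omega

/-- The characteristic variety of a module which is simple up to powers of `f` can be tested on
one vector (over the points where `f` does not vanish). -/
theorem WMod.LSimple.inCh_of_one (h : W.LSimple f) (hp : eval p f ≠ 0) {u : L} (hu : u ≠ 0)
    (H : ∀ (k : ℕ) (P : MvPolynomial (σ ⊕ σ) ℂ), P ∈ Fil σ (k + 1) → W.nf P u = 0 →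
      symAt k p ξ P = 0) : W.InCh p ξ := by
  rw [W.inCh_iff]
  intro v hv k P hP hPv
  obtain ⟨a, A, hA, hAv⟩ := h.exists_op hv u
  obtain ⟨b, B, hB, hBu⟩ := h.exists_op hu v
  have hT := WMod.Sym.nf W f p ξ hP
  set T := W.nf P
  set m := a + 1 + b
  have h1 : (T ^ m - adPow T A m * B) u = 0 := by
    rw [LinearMap.sub_apply, Module.End.mul_apply, hBu, ← hAv, adPow_apply T A hPv, sub_self]
  have h2 : W.Ord f (m * k) (adPow T A m * B) := by
    have h3 := adPow_ord hT.ord hA m
    rcases k with _ | k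
    · rw [mul_zero] at h3 ⊢
      rw [show a + 1 + 0 - m = 0 by omega] at h3
      exact h3.zMul
    · refine (h3.mul' hB).mono ?_
      have h4 : m ≤ m * (k + 1) := Nat.le_mul_of_pos_right _ (Nat.succ_pos k)
      omega
  have h3 : W.Sym f p ξ (m * k) (T ^ m - adPow T A m * B) (symAt k p ξ P ^ m) := by
    have h4 := (hT.pow m).add (h2.neg.sym (p := p) (ξ := ξ))
    rwa [← sub_eq_add_neg, add_zero] at h4
  have h4 := Sym_zero_of hp H h3 h1
  exact pow_eq_zero_iff (by omega) |>.1 h4

/-- The characteristic variety is unchanged under localisation at `f`, over `f ≠ 0`. -/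
theorem IsLoc.inCh {M : Type} [AddCommGroup M] [Module ℂ M] {W' : WMod σ M} {ι : L →ₗ[ℂ] M}
    (h : IsLoc W f W' ι) (hf : Function.Injective (W.x f)) (hp : eval p f ≠ 0) :
    W'.InCh p ξ ↔ W.InCh p ξ := by
  rw [W'.inCh_iff, W.inCh_iff]
  constructor
  · intro H u hu k P hP hPu
    refine H (ι u) ?_ k P hP ?_
    · intro h0
      exact hu (h.inj hf (by rw [h0, map_zero]))
    · rw [← h.nf, hPu, map_zero]
  · intro H v hv k P hP hPv
    obtain ⟨n, u, hu⟩ := h.frac v
    obtain ⟨R, hR, h1, h2⟩ := W'.denom f (k + 1) n P hP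
    have hu0 : u ≠ 0 := by
      rintro rfl
      rw [map_zero] at hu
      exact hv (W'.x_pow_inj h.bij.1 n (by rw [hu, map_zero]))
    have h3 : W.nf R u = 0 := by
      refine h.inj hf ?_
      rw [h.nf, ← hu, ← Module.End.mul_apply, ← h1, Module.End.mul_apply, hPv, map_zero, map_zero]
    have h4 := H u hu0 k R hR h3
    rw [Nat.add_sub_cancel] at h2
    have h5 := symAt_lt h2 p ξ
    rw [map_sub, h4, symAt_inl_mul, zero_sub, neg_eq_zero, map_pow] at h5
    rcases mul_eq_zero.1 h5 with h6 | h6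
    · exact absurd h6 (pow_ne_zero _ hp)
    · exact h6

theorem WMod.InCh.res (h : W.InCh p ξ) (N : Submodule ℂ L) (hN : W.Stable N) :
    (W.res N hN).InCh p ξ := by
  rw [WMod.inCh_iff] at h ⊢
  intro u hu k P hP hPu
  refine h (u : L) (fun h0 => hu (Subtype.ext h0)) k P hP ?_
  have h1 : ∀ P : MvPolynomial (σ ⊕ σ) ℂ, (((W.res N hN).nf P u : N) : L) = W.nf P u := by
    intro P
    induction P using sum_ind with
    | h0 g g' =>
      rw [WMod.nf_mul, WMod.nf_mul]
      rfl
    | hadd p q hp hq => rw [map_add, map_add, LinearMap.add_apply, LinearMap.add_apply,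
        Submodule.coe_add, hp, hq]
  rw [← h1, hPu, Submodule.coe_zero]

/-- Change of coordinates (two module structures on the same space). -/
theorem WMod.InCh.transport {τ : Type} [Fintype τ] [DecidableEq τ] (h : W.InCh p ξ)
    (hp : eval p f ≠ 0) (W' : WMod τ L) {p' ξ' : τ → ℂ}
    (hx : ∀ j, W.Sym f p ξ 0 (W'.x (X j)) (p' j))
    (hd : ∀ j, W.Sym f p ξ 1 (W'.d (X j)) (ξ' j)) : W'.InCh p' ξ' := by
  rw [W'.inCh_iff]
  intro u hu k P hP hPu
  exact h.sym hp hu (WMod.Sym.of_nf (W := W) W' p' ξ' hx hd hP) hPu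

end Pool.DM
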