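import Pool.Agent.Work.MP_c20ce7_dm70.S3

set_option autoImplicit false
set_option linter.unusedSectionVars false

/-!
# Change of coordinates with denominators

`W : WMod τ L`, `q` a function which acts bijectively.  New coordinates are polynomials `Y k`, `k : κ`,
whose Jacobian matrix is invertible up to `q` (`A` is `q` times its inverse).  The new derivations are
`q⁻¹ ∑ j, A k j * d j`.
-/

open MvPolynomial

noncomputable section

namespace Pool.DM

variable {τ : Type} [Fintype τ] [DecidableEq τ] {L : Type} [AddCommGroup L] [Module ℂ L]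
variable {κ : Type} [Fintype κ] [DecidableEq κ]

/-- `Y` is a coordinate system where `q ≠ 0`. -/
structure Coord (q : MvPolynomial τ ℂ) (Y : κ → MvPolynomial τ ℂ)
    (A : κ → τ → MvPolynomial τ ℂ) : Prop where
  left : ∀ k l, ∑ j, A k j * pderiv j (Y l) = if k = l then q else 0
  right : ∀ i j, ∑ k, pderiv j (Y k) * A k i = if i = j then q else 0

variable {W : WMod τ L} {q : MvPolynomial τ ℂ} {Y : κ → MvPolynomial τ ℂ}
  {A : κ → τ → MvPolynomial τ ℂ}

/-- The inverse of a function. -/
def WMod.invx (W : WMod τ L) (q : MvPolynomial τ ℂ) (hq : Function.Bijective (W.x q)) :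
    Module.End ℂ L := ((LinearEquiv.ofBijective (W.x q) hq).symm : L →ₗ[ℂ] L)

theorem WMod.x_invx (hq : Function.Bijective (W.x q)) : W.x q * W.invx q hq = 1 := by
  ext u
  exact (LinearEquiv.ofBijective (W.x q) hq).apply_symm_apply u

theorem WMod.invx_x (hq : Function.Bijective (W.x q)) : W.invx q hq * W.x q = 1 := by
  ext u
  exact (LinearEquiv.ofBijective (W.x q) hq).symm_apply_apply u

theorem WMod.invx_comm (hq : Function.Bijective (W.x q)) (g : MvPolynomial τ ℂ) :
    W.invx q hq * W.x g = W.x g * W.invx q hq := by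
  have h : W.x q * W.x g = W.x g * W.x q := by rw [← map_mul, mul_comm, map_mul]
  calc W.invx q hq * W.x g = W.invx q hq * (W.x g * (W.x q * W.invx q hq)) := by
        rw [W.x_invx, mul_one]
    _ = W.invx q hq * (W.x q * W.x g) * W.invx q hq := by rw [h]; simp only [mul_assoc]
    _ = W.x g * W.invx q hq := by rw [← mul_assoc (W.invx q hq), W.invx_x, one_mul]

theorem WMod.x_mul_cancel (hq : Function.Bijective (W.x q)) {S T : Module.End ℂ L}
    (h : W.x q * S = W.x q * T) : S = T := by
  have := congrArg (fun R => W.invx q hq * R) h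
  simpa only [← mul_assoc, W.invx_x, one_mul] using this

theorem WMod.mul_x_cancel (hq : Function.Bijective (W.x q)) {S T : Module.End ℂ L}
    (h : S * W.x q = T * W.x q) : S = T := by
  have := congrArg (fun R => R * W.invx q hq) h
  simpa only [mul_assoc, W.x_invx, mul_one] using this

/-- The coefficients of the new derivations. -/
def WMod.cf (W : WMod τ L) (q : MvPolynomial τ ℂ) (hq : Function.Bijective (W.x q))
    (A : κ → τ → MvPolynomial τ ℂ) (k : κ) (j : τ) : Module.End ℂ L :=
  W.invx q hq * W.x (A k j)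

/-- The new derivations. -/
def WMod.nd (W : WMod τ L) (q : MvPolynomial τ ℂ) (hq : Function.Bijective (W.x q))
    (A : κ → τ → MvPolynomial τ ℂ) (k : κ) : Module.End ℂ L :=
  ∑ j, W.cf q hq A k j * W.d (X j)

theorem WMod.x_nd (hq : Function.Bijective (W.x q)) (A : κ → τ → MvPolynomial τ ℂ) (k : κ) :
    W.x q * W.nd q hq A k = ∑ j, W.x (A k j) * W.d (X j) := by
  rw [WMod.nd, Finset.mul_sum]
  refine Finset.sum_congr rfl fun j _ => ?_
  rw [WMod.cf, ← mul_assoc, ← mul_assoc, W.x_invx, one_mul]

theorem WMod.cf_comm (hq : Function.Bijective (W.x q)) (A : κ → τ → MvPolynomial τ ℂ)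
    (k : κ) (j : τ) (g : MvPolynomial τ ℂ) :
    W.cf q hq A k j * W.x g = W.x g * W.cf q hq A k j := by
  rw [WMod.cf, mul_assoc, ← map_mul, mul_comm (A k j) g, map_mul, ← mul_assoc, W.invx_comm,
    mul_assoc]

theorem WMod.cf_comm' (hq : Function.Bijective (W.x q)) (A : κ → τ → MvPolynomial τ ℂ)
    (k l : κ) (i j : τ) :
    W.cf q hq A k i * W.cf q hq A l j = W.cf q hq A l j * W.cf q hq A k i := by
  simp only [WMod.cf]
  rw [mul_assoc, ← mul_assoc (W.x (A k i)), ← W.invx_comm hq (A k i), mul_assoc, ← map_mul,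
    mul_assoc, ← mul_assoc (W.x (A l j)), ← W.invx_comm hq (A l j), mul_assoc, ← map_mul,
    mul_comm (A k i)]

/-- The commutator of a new derivation with a function. -/
theorem WMod.nd_x (hq : Function.Bijective (W.x q)) (A : κ → τ → MvPolynomial τ ℂ) (k : κ)
    (g : MvPolynomial τ ℂ) :
    W.nd q hq A k * W.x g - W.x g * W.nd q hq A k =
      W.invx q hq * W.x (∑ j, A k j * pderiv j g) := by
  rw [WMod.nd, Finset.sum_mul, Finset.mul_sum, ← Finset.sum_sub_distrib, map_sum,
    Finset.mul_sum]
  refine Finset.sum_congr rfl fun j _ => ?_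
  rw [mul_assoc, W.d_mul_x, mul_add, ← mul_assoc, W.cf_comm hq, ← mul_assoc, add_sub_cancel_left,
    WMod.cf, map_mul, mul_assoc]

theorem Coord.nd_Y (h : Coord q Y A) (hq : Function.Bijective (W.x q)) (k l : κ) :
    W.nd q hq A k * W.x (Y l) - W.x (Y l) * W.nd q hq A k = if k = l then 1 else 0 := by
  rw [W.nd_x, h.left]
  split_ifs
  · exact W.invx_x hq
  · rw [map_zero, mul_zero]

theorem Coord.nd_comm (h : Coord q Y A) (hq : Function.Bijective (W.x q)) (k l : κ) :
    W.nd q hq A k * W.nd q hq A l = W.nd q hq A l * W.nd q hq A k := by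
  set D := W.nd q hq A with hD
  set a := W.cf q hq A with ha
  let Cc : τ → Module.End ℂ L := fun j =>
    (D k * a l j - a l j * D k) - (D l * a k j - a k j * D l)
  have hT : D k * D l - D l * D k = ∑ j, Cc j * W.d (X j) := by
    have h1 : D k * D l = ∑ j, D k * a l j * W.d (X j) := by
      rw [hD, WMod.nd, WMod.nd, ← ha]
      rw [Finset.mul_sum]
      simp only [mul_assoc]
    have h2 : D l * D k = ∑ j, D l * a k j * W.d (X j) := by
      rw [hD, WMod.nd, WMod.nd, ← ha]
      rw [Finset.mul_sum]
      simp only [mul_assoc]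
    have h3 : ∑ j, a l j * D k * W.d (X j) = ∑ j, a k j * D l * W.d (X j) := by
      have e1 : ∀ k l : κ, ∑ j, a l j * D k * W.d (X j) =
          ∑ j, ∑ i, a l j * a k i * (W.d (X i) * W.d (X j)) := by
        intro k l
        refine Finset.sum_congr rfl fun j _ => ?_
        rw [hD, WMod.nd, ← ha, Finset.mul_sum, Finset.sum_mul]
        refine Finset.sum_congr rfl fun i _ => ?_
        simp only [mul_assoc]
      rw [e1, e1, Finset.sum_comm]
      refine Finset.sum_congr rfl fun i _ => Finset.sum_congr rfl fun j _ => ?_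
      rw [ha, W.cf_comm' hq, ← map_mul, ← map_mul, mul_comm (X i)]
    simp only [Cc, sub_mul, Finset.sum_sub_distrib]
    rw [h1, h2, h3]
    abel
  have hx : ∀ (k m : κ), D k * W.x (Y m) = W.x (Y m) * D k + (if k = m then 1 else 0) := by
    intro k m
    rw [← h.nd_Y (W := W) hq k m]
    abel
  have hax : ∀ (k : κ) (j : τ) (g : MvPolynomial τ ℂ), a k j * W.x g = W.x g * a k j :=
    fun k j g => W.cf_comm hq A k j g
  have hC : ∀ j m, Cc j * W.x (Y m) = W.x (Y m) * Cc j := by
    intro j m
    have e1 : ∀ k l : κ, (D k * a l j - a l j * D k) * W.x (Y m) =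
        W.x (Y m) * (D k * a l j - a l j * D k) := by
      intro k l
      have e2 : D k * a l j * W.x (Y m) = W.x (Y m) * (D k * a l j) +
          (if k = m then a l j else 0) := by
        rw [mul_assoc, hax, ← mul_assoc, hx, add_mul, mul_assoc]
        split_ifs <;> simp
      have e3 : a l j * D k * W.x (Y m) = W.x (Y m) * (a l j * D k) +
          (if k = m then a l j else 0) := by
        rw [mul_assoc, hx, mul_add, ← mul_assoc, hax, mul_assoc]
        split_ifs <;> simp
      rw [sub_mul, e2, e3, mul_sub]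
      abel
    simp only [Cc]
    rw [sub_mul, e1, e1, ← mul_sub]
  have hTx : ∀ m, (D k * D l - D l * D k) * W.x (Y m) = W.x (Y m) * (D k * D l - D l * D k) := by
    intro m
    have e2 : ∀ k l : κ, D k * D l * W.x (Y m) = W.x (Y m) * (D k * D l) +
        ((if k = m then D l else 0) + (if l = m then D k else 0)) := by
      intro k l
      rw [mul_assoc, hx, mul_add, ← mul_assoc, hx, add_mul, mul_assoc, add_assoc]
      congr 1
      split_ifs <;> simp
    rw [sub_mul, e2, e2, mul_sub]
    abel
  have hs : ∀ m, ∑ j, Cc j * W.x (pderiv j (Y m)) = 0 := by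
    intro m
    have e1 := hTx m
    rw [hT, Finset.sum_mul, Finset.mul_sum] at e1
    have e2 : ∀ j, Cc j * W.d (X j) * W.x (Y m) =
        W.x (Y m) * (Cc j * W.d (X j)) + Cc j * W.x (pderiv j (Y m)) := by
      intro j
      rw [mul_assoc, W.d_mul_x, mul_add, ← mul_assoc, hC, mul_assoc]
    simp only [e2, Finset.sum_add_distrib] at e1
    simpa using e1
  have hz : ∀ i, Cc i = 0 := by
    intro i
    refine W.mul_x_cancel hq ?_
    rw [zero_mul]
    have e1 : ∑ m, (∑ j, Cc j * W.x (pderiv j (Y m))) * W.x (A m i) = 0 := by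
      simp only [hs, zero_mul, Finset.sum_const_zero]
    simp only [Finset.sum_mul, mul_assoc, ← map_mul] at e1
    rw [Finset.sum_comm] at e1
    simp only [← Finset.mul_sum, ← map_sum, h.right] at e1
    rw [← e1]
    rw [Finset.sum_eq_single i]
    · rw [if_pos rfl]
    · intro j _ hj
      rw [if_neg (Ne.symm hj), map_zero, mul_zero]
    · intro h; exact absurd (Finset.mem_univ i) h
  rw [← sub_eq_zero, hT]
  exact Finset.sum_eq_zero fun j _ => by rw [hz, zero_mul]

theorem WMod.mk70_x (B D : κ → Module.End ℂ L) (hA hD hc) (i : κ) :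
    (WMod.mk' B D hA hD hc).x (X i) = B i := homOf_X B hA i

theorem WMod.mk70_d (B D : κ → Module.End ℂ L) (hA hD hc) (i : κ) :
    (WMod.mk' B D hA hD hc).d (X i) = D i := homOf_X D hD i

/-- The module structure in the new coordinates. -/
def WMod.coord (W : WMod τ L) (hq : Function.Bijective (W.x q)) (h : Coord q Y A) : WMod κ L :=
  WMod.mk' (fun k => W.x (Y k)) (W.nd q hq A)
    (fun i j => by rw [← map_mul, mul_comm, map_mul]) (h.nd_comm hq)
    (h.nd_Y hq)

theorem WMod.coord_x (W : WMod τ L) (hq : Function.Bijective (W.x q)) (h : Coord q Y A)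
    (g : MvPolynomial κ ℂ) : (W.coord hq h).x g = W.x (bind₁ Y g) := by
  have : (W.coord hq h).x = W.x.comp (bind₁ Y) := by
    apply MvPolynomial.algHom_ext
    intro i
    rw [AlgHom.comp_apply, bind₁_X_right]
    exact WMod.mk70_x _ _ _ _ _ i
  rw [this]
  rfl

theorem WMod.coord_d (W : WMod τ L) (hq : Function.Bijective (W.x q)) (h : Coord q Y A)
    (k : κ) : (W.coord hq h).d (X k) = W.nd q hq A k := WMod.mk70_d _ _ _ _ _ k

/-- The old derivations in terms of the new ones. -/
theorem WMod.coord_old (W : WMod τ L) (hq : Function.Bijective (W.x q)) (h : Coord q Y A)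
    (j : τ) : W.d (X j) = ∑ k, W.x (pderiv j (Y k)) * (W.coord hq h).d (X k) := by
  simp only [W.coord_d, WMod.nd, Finset.mul_sum]
  rw [Finset.sum_comm]
  have h1 : ∀ i, ∑ k, W.x (pderiv j (Y k)) * (W.cf q hq A k i * W.d (X i)) =
      if i = j then W.d (X i) else 0 := by
    intro i
    have h2 : ∀ k, W.x (pderiv j (Y k)) * (W.cf q hq A k i * W.d (X i)) =
        W.invx q hq * W.x (pderiv j (Y k) * A k i) * W.d (X i) := by
      intro k
      rw [WMod.cf, ← mul_assoc, ← mul_assoc, ← W.invx_comm hq, mul_assoc (W.invx q hq),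
        ← map_mul]
    simp only [h2]
    rw [← Finset.sum_mul, ← Finset.mul_sum, ← map_sum, h.right]
    split_ifs
    · rw [W.invx_x, one_mul]
    · rw [map_zero, mul_zero, zero_mul]
  simp only [h1]
  rw [Finset.sum_ite_eq' Finset.univ j fun i => W.d (X i)]
  rw [if_pos (Finset.mem_univ j)]

theorem WMod.Sym.sum {σ' : Type} {f : MvPolynomial τ ℂ} {p ξ : τ → ℂ} {k : ℕ}
    (s : Finset σ') (T : σ' → Module.End ℂ L) (c : σ' → ℂ)
    (h : ∀ i ∈ s, W.Sym f p ξ k (T i) (c i)) :
    W.Sym f p ξ k (∑ i ∈ s, T i) (∑ i ∈ s, c i) := by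
  classical
  induction s using Finset.induction_on with
  | empty =>
    rw [Finset.sum_empty, Finset.sum_empty]
    exact (WMod.Ord.zero k).sym
  | insert a s ha ih =>
    rw [Finset.sum_insert ha, Finset.sum_insert ha]
    exact (h a (Finset.mem_insert_self a s)).add
      (ih fun i hi => h i (Finset.mem_insert_of_mem hi))

/-- Change of coordinates and the characteristic variety. -/
theorem WMod.InCh.coord {p ξ : τ → ℂ} (hCh : W.InCh p ξ) (hq : Function.Bijective (W.x q))
    (h : Coord q Y A) (hp : eval p q ≠ 0) :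
    (W.coord hq h).InCh (fun k => eval p (Y k))
      (fun k => (eval p q)⁻¹ * ∑ j, eval p (A k j) * ξ j) := by
  refine hCh.transport (f := q) hp _ (fun k => ?_) (fun k => ?_)
  · rw [W.coord_x, bind₁_X_right]
    exact WMod.Sym.x W q p ξ (Y k)
  · rw [W.coord_d]
    have h1 : W.Sym q p ξ 1 (∑ j, W.x (A k j) * W.d (X j)) (∑ j, eval p (A k j) * ξ j) := by
      refine WMod.Sym.sum _ _ _ fun j _ => ?_
      have := (WMod.Sym.x W q p ξ (A k j)).mul (WMod.Sym.d W q p ξ j)
      rwa [zero_add] at this
    have h2 := WMod.Sym.div (W := W) (f := q) (p := p) (ξ := ξ) hp 1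
      (S := W.nd q hq A k) (by rw [pow_one]; exact W.x_nd hq A k) h1
    rwa [pow_one] at h2

/-- Stable subspaces which are closed under division by `q` are the same. -/
theorem WMod.coord_stable (W : WMod τ L) (hq : Function.Bijective (W.x q)) (h : Coord q Y A)
    (h3 : ∀ j, ∃ (n : ℕ) (g : MvPolynomial κ ℂ), q ^ n * X j = bind₁ Y g)
    {N : Submodule ℂ L} (hN : (W.coord hq h).Stable N) (hNq : ∀ v, W.x q v ∈ N → v ∈ N) :
    W.Stable N := by
  have hpow : ∀ (n : ℕ) (v : L), W.x (q ^ n) v ∈ N → v ∈ N := by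
    intro n
    induction n with
    | zero => intro v hv; simpa using hv
    | succ n ih =>
      intro v hv
      rw [pow_succ', map_mul, Module.End.mul_apply] at hv
      exact ih v (hNq _ hv)
  have hx : ∀ (g : MvPolynomial τ ℂ) (u : L), u ∈ N → W.x g u ∈ N := by
    intro g
    induction g using MvPolynomial.induction_on with
    | C a => intro u hu; rw [W.x_C]; exact N.smul_mem _ hu
    | add g g' hg hg' => intro u hu; rw [map_add]; exact N.add_mem (hg u hu) (hg' u hu)
    | mul_X g j hg =>
      intro u hu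
      rw [map_mul]
      refine hg _ ?_
      obtain ⟨n, g', hn⟩ := h3 j
      refine hpow n _ ?_
      rw [← Module.End.mul_apply, ← map_mul, hn, ← W.coord_x hq h]
      exact hN.xmem g' u hu
  intro u hu
  refine ⟨fun j => hx _ u hu, fun j => ?_⟩
  rw [W.coord_old hq h, LinearMap.sum_apply]
  refine N.sum_mem fun k _ => ?_
  rw [Module.End.mul_apply]
  exact hx _ _ ((hN u hu).2 k)

/-- Change of coordinates for modules which are simple up to powers of `q`. -/
theorem WMod.LSimple.coord (hL : W.LSimple q) (h : Coord q Y A) (q' : MvPolynomial κ ℂ)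
    (hq' : bind₁ Y q' = q)
    (h3 : ∀ j, ∃ (n : ℕ) (g : MvPolynomial κ ℂ), q ^ n * X j = bind₁ Y g) :
    (W.coord hL.bij h).LSimple q' where
  bij := by rw [W.coord_x, hq']; exact hL.bij
  nt := hL.nt
  top := by
    intro N hN hN0 hNq
    rw [W.coord_x, hq'] at hNq
    exact hL.top N (W.coord_stable hL.bij h h3 hN hNq) hN0 hNq

end Pool.DM
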