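import Pool.Agent.Work.MP_c20ce7_dm70.S7

set_option autoImplicit false
set_option linter.unusedSectionVars false
set_option linter.unusedSimpArgs false

/-!
# The coordinates of the up-step: `φ₂ = T φ₁ + R`

`K`: old coordinates, `R`: rows, `E`: columns, `C`: new rows, `p b e : K` the entry `(b, e)` of `φ₁`,
`J : R → E` the columns of the minor.
-/

open MvPolynomial

noncomputable section

namespace Pool.DM

namespace Row

variable {K R E C : Type} [Fintype K] [DecidableEq K] [Fintype R] [DecidableEq R]
  [Fintype E] [DecidableEq E] [Fintype C] [DecidableEq C]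

/-- The columns outside the minor. -/
abbrev Jc (J : R → E) : Type := {e : E // ∀ k, J k ≠ e}

/-- The coordinates `K`, `T`, `R`. -/
abbrev Tau (K C : Type) (J : R → E) : Type := K ⊕ ((C × R) ⊕ (C × Jc J))

/-- The coordinates `K`, `φ₂`. -/
abbrev Kap (K C E : Type) : Type := K ⊕ (C × E)

variable (p : R → E → K) (J : R → E)

/-- The matrix of the minor. -/
def gm (σ : Type) : Matrix R R (MvPolynomial (K ⊕ σ) ℂ) :=
  Matrix.of fun b k => X (Sum.inl (p b (J k)))

/-- The minor. -/
def qm (σ : Type) : MvPolynomial (K ⊕ σ) ℂ := (gm p J σ).det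

/-- The new functions. -/
def Ym (C : Type) : Kap K C E → MvPolynomial (Tau K C J) ℂ
  | Sum.inl k => X (Sum.inl k)
  | Sum.inr (a, e) => ∑ b, X (Sum.inr (Sum.inl (a, b))) * X (Sum.inl (p b e)) +
      if h : ∀ k, J k ≠ e then X (Sum.inr (Sum.inr (a, ⟨e, h⟩))) else 0

/-- The coefficients of the derivations of the new rows. -/
def A2 (C : Type) [DecidableEq C] (a : C) (e : E) : Tau K C J → MvPolynomial (Tau K C J) ℂ
  | Sum.inl _ => 0
  | Sum.inr (Sum.inl (a', b)) => if a' = a then
      ∑ k, (if J k = e then (gm p J ((C × R) ⊕ (C × Jc J))).adjugate k b else 0) else 0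
  | Sum.inr (Sum.inr (a', e')) => if a' = a then
      (if e'.1 = e then qm p J ((C × R) ⊕ (C × Jc J)) else 0) -
        ∑ k, (if J k = e then ∑ b, (gm p J ((C × R) ⊕ (C × Jc J))).adjugate k b *
          X (Sum.inl (p b e'.1)) else 0) else 0

/-- The coefficients of the new derivations. -/
def Am (C : Type) [Fintype C] [DecidableEq C] : Kap K C E → Tau K C J → MvPolynomial (Tau K C J) ℂ
  | Sum.inl k', j => (if j = Sum.inl k' then qm p J ((C × R) ⊕ (C × Jc J)) else 0) -
      ∑ a, ∑ e, ∑ b, if p b e = k' then X (Sum.inr (Sum.inl (a, b))) * A2 p J C a e j else 0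
  | Sum.inr (a, e), j => A2 p J C a e j

theorem gm_adj (σ : Type) (b b' : R) :
    ∑ k, X (Sum.inl (p b (J k))) * (gm p J σ).adjugate k b' =
      if b = b' then qm p J σ else 0 := by
  have h := congrFun (congrFun (Matrix.mul_adjugate (gm p J σ)) b) b'
  rw [Matrix.mul_apply, Matrix.smul_apply, Matrix.one_apply, smul_eq_mul] at h
  rw [show ∑ k, X (Sum.inl (p b (J k))) * (gm p J σ).adjugate k b' =
    ∑ k, gm p J σ b k * (gm p J σ).adjugate k b' from rfl, h]
  split_ifs
  · rw [mul_one]; rfl
  · rw [mul_zero]

theorem adj_gm (σ : Type) (k k' : R) :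
    ∑ b, (gm p J σ).adjugate k b * X (Sum.inl (p b (J k'))) =
      if k = k' then qm p J σ else 0 := by
  have h := congrFun (congrFun (Matrix.adjugate_mul (gm p J σ)) k) k'
  rw [Matrix.mul_apply, Matrix.smul_apply, Matrix.one_apply, smul_eq_mul] at h
  rw [show ∑ b, (gm p J σ).adjugate k b * X (Sum.inl (p b (J k'))) =
    ∑ b, (gm p J σ).adjugate k b * gm p J σ b k' from rfl, h]
  split_ifs
  · rw [mul_one]; rfl
  · rw [mul_zero]

theorem pd_inl (k0 : K) (a : C) (e : E) :
    pderiv (Sum.inl k0) (Ym p J C (Sum.inr (a, e))) =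
      ∑ b, if p b e = k0 then X (Sum.inr (Sum.inl (a, b))) else 0 := by
  rw [Ym, map_add, map_sum]
  have h1 : pderiv (Sum.inl k0) (if h : ∀ k, J k ≠ e then
      (X (Sum.inr (Sum.inr (a, ⟨e, h⟩))) : MvPolynomial (Tau K C J) ℂ) else 0) = 0 := by
    split_ifs
    · rw [pderiv_X_of_ne (by simp)]
    · rw [map_zero]
  rw [h1, add_zero]
  refine Finset.sum_congr rfl fun b _ => ?_
  rw [Derivation.leibniz, pderiv_X_of_ne (show (Sum.inr (Sum.inl (a, b)) : Tau K C J) ≠
    Sum.inl k0 by simp), smul_zero, add_zero]
  by_cases h : p b e = k0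
  · rw [if_pos h, h, pderiv_X_self, smul_eq_mul, mul_one]
  · rw [if_neg h, pderiv_X_of_ne (by simpa using h), smul_zero]

theorem pd_T (a0 : C) (b0 : R) (a : C) (e : E) :
    pderiv (Sum.inr (Sum.inl (a0, b0))) (Ym p J C (Sum.inr (a, e))) =
      if a0 = a then X (Sum.inl (p b0 e)) else 0 := by
  rw [Ym, map_add, map_sum]
  have h1 : pderiv (Sum.inr (Sum.inl (a0, b0))) (if h : ∀ k, J k ≠ e then
      (X (Sum.inr (Sum.inr (a, ⟨e, h⟩))) : MvPolynomial (Tau K C J) ℂ) else 0) = 0 := by
    split_ifs
    · rw [pderiv_X_of_ne (by simp)]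
    · rw [map_zero]
  rw [h1, add_zero]
  have h2 : ∀ b, pderiv (Sum.inr (Sum.inl (a0, b0))) ((X (Sum.inr (Sum.inl (a, b))) *
      X (Sum.inl (p b e))) : MvPolynomial (Tau K C J) ℂ) =
      if b = b0 then (if a0 = a then X (Sum.inl (p b0 e)) else 0) else 0 := by
    intro b
    rw [Derivation.leibniz, pderiv_X_of_ne (show (Sum.inl (p b e) : Tau K C J) ≠
      Sum.inr (Sum.inl (a0, b0)) by simp), smul_zero, zero_add]
    by_cases hb : b = b0
    · subst hb
      rw [if_pos rfl]
      by_cases ha : a0 = a
      · subst ha
        rw [if_pos rfl, pderiv_X_self, smul_eq_mul, mul_one]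
      · rw [if_neg ha, pderiv_X_of_ne (by simpa using fun h => ha h.symm), smul_zero]
    · rw [if_neg hb, pderiv_X_of_ne (by simpa using fun _ => hb), smul_zero]
  simp only [h2]
  rw [Finset.sum_ite_eq' Finset.univ b0 fun _ => if a0 = a then
    (X (Sum.inl (p b0 e)) : MvPolynomial (Tau K C J) ℂ) else 0, if_pos (Finset.mem_univ b0)]

theorem pd_R (a0 : C) (e0 : Jc J) (a : C) (e : E) :
    pderiv (Sum.inr (Sum.inr (a0, e0))) (Ym p J C (Sum.inr (a, e))) =
      if a0 = a ∧ e0.1 = e then 1 else 0 := by
  rw [Ym, map_add, map_sum]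
  have h1 : ∑ b, pderiv (Sum.inr (Sum.inr (a0, e0))) ((X (Sum.inr (Sum.inl (a, b))) *
      X (Sum.inl (p b e))) : MvPolynomial (Tau K C J) ℂ) = 0 := by
    refine Finset.sum_eq_zero fun b _ => ?_
    rw [Derivation.leibniz, pderiv_X_of_ne (by simp), pderiv_X_of_ne (by simp), smul_zero,
      smul_zero, add_zero]
  rw [h1, zero_add]
  split_ifs with h h2 h2
  · obtain ⟨rfl, rfl⟩ := h2
    exact pderiv_X_self _
  · refine pderiv_X_of_ne ?_
    intro h3
    apply h2
    simp only [Sum.inr.injEq, Prod.mk.injEq] at h3
    exact ⟨h3.1.symm, by rw [← h3.2]⟩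
  · exact absurd (h2.2 ▸ e0.2) h
  · exact map_zero _

theorem sum_J (e : E) (f : R → MvPolynomial (Tau K C J) ℂ) (hJ : Function.Injective J) (k0 : R)
    (h : J k0 = e) : ∑ k, (if J k = e then f k else 0) = f k0 := by
  rw [Finset.sum_eq_single k0]
  · rw [if_pos h]
  · intro k _ hk
    rw [if_neg]
    intro h2
    exact hk (hJ (h2.trans h.symm))
  · intro h; exact absurd (Finset.mem_univ k0) h

theorem kap_eq {a a1 : C} {e e1 : E} (h : (Sum.inr (a, e) : Kap K C E) = Sum.inr (a1, e1)) :
    a = a1 ∧ e = e1 := by
  simpa using h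

theorem sum_J_zero (e : E) (f : R → MvPolynomial (Tau K C J) ℂ) (h : ∀ k, J k ≠ e) :
    ∑ k, (if J k = e then f k else 0) = 0 :=
  Finset.sum_eq_zero fun k _ => if_neg (h k)

/-- The new derivations of the new rows applied to the new functions. -/
theorem A2_left (hJ : Function.Injective J) (a : C) (e : E) (l : Kap K C E) :
    ∑ j, A2 p J C a e j * pderiv j (Ym p J C l) =
      if Sum.inr (a, e) = l then qm p J ((C × R) ⊕ (C × Jc J)) else 0 := by
  rw [Fintype.sum_sum_type, Fintype.sum_sum_type]
  have h0 : ∑ x : K, A2 p J C a e (Sum.inl x) * pderiv (Sum.inl x) (Ym p J C l) = 0 :=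
    Finset.sum_eq_zero fun x _ => by rw [A2, zero_mul]
  rw [h0, zero_add]
  rcases l with l | ⟨a1, e1⟩
  · rw [if_neg (by simp)]
    have h1 : ∀ j, pderiv (Sum.inr j) (Ym p J C (Sum.inl l)) = 0 := by
      intro j
      rw [Ym, pderiv_X_of_ne (by simp)]
    simp only [h1, mul_zero, Finset.sum_const_zero, add_zero]
  · rw [Fintype.sum_prod_type, Fintype.sum_prod_type]
    simp only [pd_T, pd_R]
    have h1 : ∑ x : C, ∑ y : R, A2 p J C a e (Sum.inr (Sum.inl (x, y))) *
        (if x = a1 then (X (Sum.inl (p y e1)) : MvPolynomial (Tau K C J) ℂ) else 0) =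
        if a1 = a then ∑ k, (if J k = e then ∑ y,
          (gm p J ((C × R) ⊕ (C × Jc J))).adjugate k y * X (Sum.inl (p y e1)) else 0) else 0 := by
      rw [Finset.sum_eq_single a1]
      · by_cases ha : a1 = a
        · subst ha
          simp only [A2, if_true, Finset.sum_mul]
          rw [Finset.sum_comm]
          refine Finset.sum_congr rfl fun k _ => ?_
          by_cases hk : J k = e
          · simp only [if_pos hk]
          · simp only [if_neg hk, zero_mul, Finset.sum_const_zero]
        · simp only [A2, if_neg ha, zero_mul, Finset.sum_const_zero]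
      · intro x _ hx
        refine Finset.sum_eq_zero fun y _ => ?_
        rw [if_neg hx, mul_zero]
      · intro h; exact absurd (Finset.mem_univ a1) h
    rw [h1]
    by_cases he1 : ∀ k, J k ≠ e1
    · have h2 : ∑ x : C, ∑ y : Jc J, A2 p J C a e (Sum.inr (Sum.inr (x, y))) *
          (if x = a1 ∧ y.1 = e1 then (1 : MvPolynomial (Tau K C J) ℂ) else 0) =
          A2 p J C a e (Sum.inr (Sum.inr (a1, ⟨e1, he1⟩))) := by
        rw [Finset.sum_eq_single a1, Finset.sum_eq_single ⟨e1, he1⟩]
        · rw [if_pos ⟨rfl, rfl⟩, mul_one]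
        · intro y _ hy
          rw [if_neg, mul_zero]
          rintro ⟨-, h⟩
          exact hy (Subtype.ext h)
        · intro h; exact absurd (Finset.mem_univ _) h
        · intro x _ hx
          refine Finset.sum_eq_zero fun y _ => ?_
          rw [if_neg (fun h => hx h.1), mul_zero]
        · intro h; exact absurd (Finset.mem_univ a1) h
      rw [h2]
      by_cases ha : a1 = a
      · subst ha
        rw [if_pos rfl, A2, if_pos rfl]
        by_cases hee : e1 = e
        · subst hee
          rw [if_pos rfl, if_pos rfl]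
          ring
        · rw [if_neg hee, if_neg (fun h => hee (kap_eq h).2.symm)]
          ring
      · rw [if_neg ha, A2, if_neg ha, if_neg, add_zero]
        simp only [Sum.inr.injEq, Prod.mk.injEq]
        exact fun h => ha h.1.symm
    · push Not at he1
      obtain ⟨k1, hk1⟩ := he1
      have h2 : ∑ x : C, ∑ y : Jc J, A2 p J C a e (Sum.inr (Sum.inr (x, y))) *
          (if x = a1 ∧ y.1 = e1 then (1 : MvPolynomial (Tau K C J) ℂ) else 0) = 0 := by
        refine Finset.sum_eq_zero fun x _ => Finset.sum_eq_zero fun y _ => ?_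
        rw [if_neg, mul_zero]
        rintro ⟨-, h⟩
        exact y.2 k1 (hk1.trans h.symm)
      rw [h2, add_zero]
      by_cases ha : a1 = a
      · subst ha
        rw [if_pos rfl]
        have h3 : ∀ k, ∑ y, (gm p J ((C × R) ⊕ (C × Jc J))).adjugate k y *
            X (Sum.inl (p y e1)) = if k = k1 then qm p J ((C × R) ⊕ (C × Jc J)) else 0 := by
          intro k
          rw [← hk1]
          exact adj_gm p J _ k k1
        simp only [h3]
        by_cases hee : e1 = e
        · rw [sum_J J e (fun k => if k = k1 then qm p J ((C × R) ⊕ (C × Jc J)) else 0) hJ k1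
            (hk1.trans hee), if_pos rfl, if_pos (by rw [hee])]
        · rw [if_neg (fun h => hee (kap_eq h).2.symm)]
          refine Finset.sum_eq_zero fun k _ => ?_
          by_cases hk : J k = e
          · rw [if_pos hk, if_neg]
            rintro rfl
            exact hee (hk1.symm.trans hk)
          · rw [if_neg hk]
      · rw [if_neg ha, if_neg]
        simp only [Sum.inr.injEq, Prod.mk.injEq]
        exact fun h => ha h.1.symm

/-- The coordinate system `φ₂ = T φ₁ + R`. -/
theorem coord (hJ : Function.Injective J) :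
    Coord (qm p J ((C × R) ⊕ (C × Jc J))) (Ym p J C) (Am p J C) where
  left := by
    intro k l
    rcases k with k' | ⟨a, e⟩
    · simp only [Am, sub_mul, Finset.sum_sub_distrib]
      have h1 : ∑ j, (if j = Sum.inl k' then qm p J ((C × R) ⊕ (C × Jc J)) else 0) *
          pderiv j (Ym p J C l) =
          qm p J ((C × R) ⊕ (C × Jc J)) * pderiv (Sum.inl k') (Ym p J C l) := by
        rw [Finset.sum_eq_single (Sum.inl k')]
        · rw [if_pos rfl]
        · intro j _ hj
          rw [if_neg hj, zero_mul]
        · intro h; exact absurd (Finset.mem_univ _) h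
      have h2 : ∑ j, (∑ a, ∑ e, ∑ b, if p b e = k' then
          X (Sum.inr (Sum.inl (a, b))) * A2 p J C a e j else 0) * pderiv j (Ym p J C l) =
          ∑ a, ∑ e, ∑ b, if p b e = k' then X (Sum.inr (Sum.inl (a, b))) *
            (if Sum.inr (a, e) = l then qm p J ((C × R) ⊕ (C × Jc J)) else 0) else 0 := by
        simp only [Finset.sum_mul]
        rw [Finset.sum_comm]
        refine Finset.sum_congr rfl fun a _ => ?_
        rw [Finset.sum_comm]
        refine Finset.sum_congr rfl fun e _ => ?_
        rw [Finset.sum_comm]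
        refine Finset.sum_congr rfl fun b _ => ?_
        by_cases h : p b e = k'
        · simp only [if_pos h, mul_assoc, ← Finset.mul_sum]
          rw [A2_left p J hJ a e l]
        · simp only [if_neg h, zero_mul, Finset.sum_const_zero]
      rw [h1, h2]
      rcases l with l | ⟨a1, e1⟩
      · rw [Ym]
        by_cases hl : l = k'
        · subst hl
          rw [pderiv_X_self, mul_one, if_pos rfl]
          simp
        · rw [pderiv_X_of_ne (by simpa using hl), if_neg (by simpa using fun h => hl h.symm)]
          simp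
      · rw [pd_inl, if_neg (by simp)]
        rw [Finset.sum_eq_single a1]
        · rw [Finset.sum_eq_single e1]
          · rw [Finset.mul_sum, ← Finset.sum_sub_distrib]
            refine Finset.sum_eq_zero fun b _ => ?_
            rw [if_pos (show (Sum.inr (a1, e1) : Kap K C E) = Sum.inr (a1, e1) from rfl)]
            split_ifs <;> ring
          · intro e _ he
            refine Finset.sum_eq_zero fun b _ => ?_
            rw [if_neg (show ¬ ((Sum.inr (a1, e) : Kap K C E) = Sum.inr (a1, e1)) by
              simpa using he), mul_zero]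
            split_ifs <;> rfl
          · intro h; exact absurd (Finset.mem_univ _) h
        · intro a _ ha
          refine Finset.sum_eq_zero fun e _ => Finset.sum_eq_zero fun b _ => ?_
          rw [if_neg (show ¬ ((Sum.inr (a, e) : Kap K C E) = Sum.inr (a1, e1)) by
            simp [ha]), mul_zero]
          split_ifs <;> rfl
        · intro h; exact absurd (Finset.mem_univ _) h
    · exact A2_left p J hJ a e l
  right := by
    intro i j
    rw [Fintype.sum_sum_type, Fintype.sum_prod_type]
    rcases j with k0 | ⟨a0, b0⟩ | ⟨a0, e0⟩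
    · have h1 : ∑ x : K, pderiv (Sum.inl k0) (Ym p J C (Sum.inl x)) * Am p J C (Sum.inl x) i =
          Am p J C (Sum.inl k0) i := by
        rw [Finset.sum_eq_single k0]
        · rw [Ym, pderiv_X_self, one_mul]
        · intro x _ hx
          rw [Ym, pderiv_X_of_ne (by simpa using hx), zero_mul]
        · intro h; exact absurd (Finset.mem_univ _) h
      rw [h1]
      simp only [pd_inl, Am, Finset.sum_mul]
      have h2 : ∑ x : C, ∑ x_1 : E, ∑ i_1 : R, (if p i_1 x_1 = k0 then
          (X (Sum.inr (Sum.inl (x, i_1))) : MvPolynomial (Tau K C J) ℂ) else 0) *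
            A2 p J C x x_1 i = ∑ a, ∑ e, ∑ b, if p b e = k0 then
          X (Sum.inr (Sum.inl (a, b))) * A2 p J C a e i else 0 := by
        refine Finset.sum_congr rfl fun a _ => Finset.sum_congr rfl fun e _ =>
          Finset.sum_congr rfl fun b _ => ?_
        split_ifs
        · rfl
        · rw [zero_mul]
      rw [h2, sub_add_cancel]
    · have h1 : ∑ x : K, pderiv (Sum.inr (Sum.inl (a0, b0))) (Ym p J C (Sum.inl x)) *
          Am p J C (Sum.inl x) i = 0 :=
        Finset.sum_eq_zero fun x _ => by rw [Ym, pderiv_X_of_ne (by simp), zero_mul]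
      rw [h1, zero_add]
      simp only [pd_T]
      have h2 : ∑ x : C, ∑ x_1 : E, (if a0 = x then
          (X (Sum.inl (p b0 x_1)) : MvPolynomial (Tau K C J) ℂ) else 0) *
            Am p J C (Sum.inr (x, x_1)) i = ∑ e, X (Sum.inl (p b0 e)) * A2 p J C a0 e i := by
        rw [Finset.sum_eq_single a0]
        · simp only [if_true, Am]
        · intro x _ hx
          refine Finset.sum_eq_zero fun e _ => ?_
          rw [if_neg (Ne.symm hx), zero_mul]
        · intro h; exact absurd (Finset.mem_univ _) h
      rw [h2]
      rcases i with i | ⟨a', b⟩ | ⟨a', e'⟩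
      · rw [if_neg (by simp)]
        simp only [A2, mul_zero, Finset.sum_const_zero]
      · simp only [A2]
        by_cases ha : a' = a0
        · subst ha
          simp only [if_true, Finset.mul_sum]
          rw [Finset.sum_comm]
          have h3 : ∀ k, ∑ e, X (Sum.inl (p b0 e)) * (if J k = e then
              (gm p J ((C × R) ⊕ (C × Jc J))).adjugate k b else 0) =
              X (Sum.inl (p b0 (J k))) * (gm p J ((C × R) ⊕ (C × Jc J))).adjugate k b := by
            intro k
            rw [Finset.sum_eq_single (J k)]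
            · rw [if_pos rfl]
            · intro e _ he
              rw [if_neg (Ne.symm he), mul_zero]
            · intro h; exact absurd (Finset.mem_univ _) h
          simp only [h3]
          rw [gm_adj]
          by_cases hb : b0 = b
          · rw [if_pos hb, if_pos (by rw [hb])]
          · rw [if_neg hb, if_neg (by simpa using fun h => hb h.symm)]
        · simp only [if_neg ha, mul_zero, Finset.sum_const_zero]
          rw [if_neg (by simp [ha])]
      · simp only [A2]
        rw [if_neg (by simp)]
        by_cases ha : a' = a0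
        · subst ha
          simp only [if_true, mul_sub, Finset.sum_sub_distrib, Finset.mul_sum]
          have h3 : ∑ e, X (Sum.inl (p b0 e)) * (if e'.1 = e then
              qm p J ((C × R) ⊕ (C × Jc J)) else 0) =
              X (Sum.inl (p b0 e'.1)) * qm p J ((C × R) ⊕ (C × Jc J)) := by
            rw [Finset.sum_eq_single e'.1]
            · rw [if_pos rfl]
            · intro e _ he
              rw [if_neg (Ne.symm he), mul_zero]
            · intro h; exact absurd (Finset.mem_univ _) h
          have h4 : ∑ e, ∑ k, X (Sum.inl (p b0 e)) * (if J k = e then ∑ b,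
              (gm p J ((C × R) ⊕ (C × Jc J))).adjugate k b * X (Sum.inl (p b e'.1)) else 0) =
              X (Sum.inl (p b0 e'.1)) * qm p J ((C × R) ⊕ (C × Jc J)) := by
            rw [Finset.sum_comm]
            have h5 : ∀ k, ∑ e, X (Sum.inl (p b0 e)) * (if J k = e then ∑ b,
                (gm p J ((C × R) ⊕ (C × Jc J))).adjugate k b * X (Sum.inl (p b e'.1)) else 0) =
                ∑ b, X (Sum.inl (p b0 (J k))) *
                  (gm p J ((C × R) ⊕ (C × Jc J))).adjugate k b * X (Sum.inl (p b e'.1)) := by
              intro k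
              rw [Finset.sum_eq_single (J k)]
              · rw [if_pos rfl, Finset.mul_sum]
                simp only [mul_assoc]
              · intro e _ he
                rw [if_neg (Ne.symm he), mul_zero]
              · intro h; exact absurd (Finset.mem_univ _) h
            simp only [h5]
            rw [Finset.sum_comm]
            simp only [← Finset.sum_mul, gm_adj]
            rw [Finset.sum_eq_single b0]
            · rw [if_pos rfl, mul_comm]
            · intro b _ hb
              rw [if_neg (Ne.symm hb), zero_mul]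
            · intro h; exact absurd (Finset.mem_univ _) h
          rw [h3, h4, sub_self]
        · simp only [if_neg ha, mul_zero, Finset.sum_const_zero]
    · have h1 : ∑ x : K, pderiv (Sum.inr (Sum.inr (a0, e0))) (Ym p J C (Sum.inl x)) *
          Am p J C (Sum.inl x) i = 0 :=
        Finset.sum_eq_zero fun x _ => by rw [Ym, pderiv_X_of_ne (by simp), zero_mul]
      rw [h1, zero_add]
      simp only [pd_R]
      have h2 : ∑ x : C, ∑ x_1 : E, (if a0 = x ∧ e0.1 = x_1 then
          (1 : MvPolynomial (Tau K C J) ℂ) else 0) *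
            Am p J C (Sum.inr (x, x_1)) i = A2 p J C a0 e0.1 i := by
        rw [Finset.sum_eq_single a0, Finset.sum_eq_single e0.1]
        · rw [if_pos ⟨rfl, rfl⟩, one_mul]
          rfl
        · intro x _ hx
          rw [if_neg (fun h => hx h.2.symm), zero_mul]
        · intro h; exact absurd (Finset.mem_univ _) h
        · intro x _ hx
          refine Finset.sum_eq_zero fun e _ => ?_
          rw [if_neg (fun h => hx h.1.symm), zero_mul]
        · intro h; exact absurd (Finset.mem_univ _) h
      rw [h2]
      rcases i with i | ⟨a', b⟩ | ⟨a', e'⟩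
      · rw [A2, if_neg (by simp)]
      · rw [A2, sum_J_zero J _ _ e0.2, ite_self, if_neg (by simp)]
      · rw [A2, sum_J_zero J _ _ e0.2, sub_zero]
        by_cases ha : a' = a0
        · subst ha
          rw [if_pos rfl]
          by_cases he : e'.1 = e0.1
          · rw [if_pos he, if_pos (by rw [Subtype.ext he])]
          · rw [if_neg he, if_neg]
            simp only [Sum.inr.injEq, Prod.mk.injEq, true_and]
            exact fun h => he (by rw [h])
        · rw [if_neg ha, if_neg]
          simp only [Sum.inr.injEq, Prod.mk.injEq]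
          exact fun h => ha h.1

end Row

end Pool.DM
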